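import Pool.Agent.P.MP_08fd93_co.FP.L2
import Pool.Agent.P.MP_08fd93_co.FE.KS

/-! More strict sets in the cell under a top edge. -/

set_option autoImplicit false

namespace Pool.Agent.P.MP_08fd93_co.FP

open OV FU FB FS OV.PkStp4aP

variable {W : Type} {H : SimpleGraph W} {d : DD W} {S : Set (Sym2 W)} {e e' : Sym2 W}
  {z p p' b0 t : W}

/-- The edges of `S` are pairwise separated by real or virtual rungs. -/
def Pw (H : SimpleGraph W) (d : DD W) (p : W) (S : Set (Sym2 W)) : Prop :=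
  ∀ e ∈ S, ∀ e' ∈ S, e ≠ e' → ∃ b, (VR H d p b ∨ RR H d b) ∧
    (((∀ x ∈ e, d.ρ x ≤ d.ρ b) ∧ ∀ x ∈ e', d.ρ b ≤ d.ρ x) ∨
      ((∀ x ∈ e', d.ρ x ≤ d.ρ b) ∧ ∀ x ∈ e, d.ρ b ≤ d.ρ x))

theorem pw_one : Pw H d p {e} := by
  rintro _ rfl _ rfl n
  exact absurd rfl n

theorem pw_two {b : W} (h : VR H d p b) (k : ∀ x ∈ e, d.ρ x ≤ d.ρ b)
    (k' : ∀ x ∈ e', d.ρ b ≤ d.ρ x) : Pw H d p {e, e'} := by
  rintro _ (rfl | rfl) _ (rfl | rfl) n
  exacts [absurd rfl n, ⟨b, Or.inl h, Or.inl ⟨k, k'⟩⟩, ⟨b, Or.inl h, Or.inr ⟨k, k'⟩⟩, absurd rfl n]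

/-- The first bottom vertex sees both top vertices: any two edges are strict with the top. -/
theorem anyV (hP : Pl H Set.univ) (T : TA H) (D : Disc H d) (top : H.Adj d.a' d.b')
    (v : H.Adj d.a d.b') (he : e ∈ PE H d.X) (he' : e' ∈ PE H d.X) :
    ∃ o, Out H d {e, e', s(d.a', d.b')} o := by
  have m : s(d.a', d.b') ∈ PE H d.Y := mem_PE.2 ⟨D.py.ha, D.py.hb, top⟩
  refine tp hP T D (admP_three (Or.inl he) (Or.inl he') (Or.inr m)
    (sepB D D.px.ha v (fun y k => ⟨PE.ends he k, D.px.lo y (PE.ends he k)⟩) m)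
    (sepB D D.px.ha v (fun y k => ⟨PE.ends he' k, D.px.lo y (PE.ends he' k)⟩) m)
    (Or.inr (Or.inl (Or.inl ⟨d.a, D.px.ha, d.b, D.px.hb, d.b', D.py.hb, v, D.rb,
      fun x hx => ?_⟩))))
  have k : x ∈ d.X := hx.elim (PE.ends he) (PE.ends he')
  exact ⟨k, D.px.lo x k, D.px.hi x k⟩

/-- An edge of the second path after the landing point may be added. -/
theorem admM_top {s : SD W} (P : Stp H s) (R : Reg H s) (hS : S ⊆ PE H s.d.X)
    (hr : ∀ e ∈ S, ∀ x ∈ e, s.d.ρ s.p' ≤ s.d.ρ x) (A : Adm H s.dM S)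
    (hl : ∀ e ∈ S, ∃ b, VR H s.d s.p b ∧ ∀ x ∈ e, s.d.ρ x ≤ s.d.ρ b) (he : e ∈ PE H s.YM) :
    Adm H s.dM (insert e S) := by
  have D := P.disc
  have h1 : e ∈ PE H s.dM.Y := PE.mono Set.subset_union_right he
  have one : ∀ f ∈ S, Sep H s.dM f e := by
    intro f hf
    obtain ⟨b, hb, k⟩ := hl f hf
    obtain ⟨u, hu, u', hu', -, l, rfl⟩ := pe_ord D.px (hS hf)
    have k1 := hr _ hf u (Sym2.mem_mk_left _ _)
    have k2 := k u' (Sym2.mem_mk_right _ _)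
    obtain ⟨m, y, hy, a, ht⟩ := rungM P R (by omega) (Or.inl hb)
    have ht := ht hb
    have ry := rM_tau ht
    have := P.pt.hi y ht
    refine ⟨b, m, y, hy, a, fun x hx => Or.inl ⟨⟨PE.ends (hS hf) hx, hr _ hf x hx⟩, ?_⟩,
      fun x hx => Or.inr ⟨PE.ends h1 hx, ?_⟩⟩
    · rw [rM_not (tauX P (PE.ends (hS hf) hx)), rM_not (tauX P m.1)]
      exact k x hx
    · have q := PE.ends he hx
      have := q.2
      rw [rM_not (tauY P q.1)]
      omega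
  refine ⟨?_, ?_⟩
  · rintro f (rfl | hf)
    exacts [Or.inr h1, A.1 hf]
  · rintro f (rfl | hf) f' (rfl | hf') hne
    exacts [absurd rfl hne, Or.inr (one f' hf'), Or.inl (one f hf), A.2 f hf f' hf' hne]

/-- the step when the path lands on the first top vertex only -/
theorem land_a (hP : Pl H Set.univ) (T : TA H) {s : SD W} (P : Stp H s) (R : Reg H s)
    (dm : Disc H s.dM) (top : H.Adj s.d.a' s.d.b') (ej : s.qj = s.d.a') (hS : S ⊆ PE H s.d.X)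
    (hr : ∀ e ∈ S, ∀ x ∈ e, s.d.ρ s.p' ≤ s.d.ρ x) (hs : Pw H s.d s.p S)
    (hl : ∀ e ∈ S, ∃ b, VR H s.d s.p b ∧ ∀ x ∈ e, s.d.ρ x ≤ s.d.ρ b) :
    ∃ o, Out H s.d (insert s(s.d.a', s.d.b') (insert s(s.p, s.p') S)) o := by
  have D := P.disc
  have el : s.ql = s.qj := by
    have := lj P
    have := D.py.lo _ P.hl
    exact D.py.inj _ P.hl _ P.hj (by rw [ej] at *; omega)
  have m : s(s.d.a', s.d.b') ∈ PE H s.YM :=
    mem_PE.2 ⟨⟨D.py.ha, by rw [ej]⟩, ⟨D.py.hb, D.py.hi _ P.hj⟩, top⟩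
  obtain ⟨o1, O1⟩ := T s.dM _ dm (admM_top P R hS hr (admM P R hS hr hs) hl m)
  obtain ⟨u0, A⟩ := pa_of_eq P R dm O1.shp
    (keepY O1.shp (Or.inl rfl) (ej ▸ Sym2.mem_mk_left _ _) (Or.inr ⟨P.hj, le_rfl⟩)) el
  refine step_std hP T A O1 (fun k => absurd el k) ?_
  rintro f (rfl | rfl | k)
  exacts [Or.inr ⟨Or.inl rfl, Or.inr (PE.mono (fun _ k => k.1) m)⟩, Or.inl rfl,
    Or.inr ⟨Or.inr k, Or.inl (hS k)⟩]

/-- The span lemma with a strict top: no inner vertex sees the last top vertex and the bottom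
before `p`. -/
theorem spt (hP : Pl H Set.univ) (T : TA H) (D : Disc H d) (top : H.Adj d.a' d.b') (hp : p ∈ d.X)
    (hp' : p' ∈ d.X) (lt : d.ρ p < d.ρ p') (pp : H.Adj p p') (h0 : VR H d p b0)
    (l0 : d.ρ p' < d.ρ b0) (hS : S ⊆ PE H d.X) (hr : ∀ e ∈ S, ∀ x ∈ e, d.ρ p' ≤ d.ρ x)
    (hs : Pw H d p S) (hl : ∀ e ∈ S, ∃ b, VR H d p b ∧ ∀ x ∈ e, d.ρ x ≤ d.ρ b)
    (no : ∀ w ∈ d.I, H.Adj w d.b' → ∀ x ∈ d.X, d.ρ x ≤ d.ρ p → ¬ H.Adj w x) :
    ∃ o, Out H d (insert s(d.a', d.b') (insert s(p, p') S)) o := by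
  obtain ⟨z, hz, a1, a2⟩ := apex_in hP D hp hp' lt pp h0 l0
  obtain ⟨s, rfl, rfl, rfl, -, P, R, dm, -⟩ := step_z hP D hp hp' lt pp hz a1 a2
  refine land_a hP T P R dm top ?_ hS hr hs hl
  have k := P.hj
  rw [D.py.eq_pair top] at k
  refine k.resolve_right fun c => ?_
  obtain ⟨x, hx, lx, ax⟩ := P.tn _ P.pt.hb
  exact no _ (P.ti P.pt.hb) (c ▸ P.vj) x hx lx ax

/-- A common neighbour `t` of the top vertices sees only the first bottom vertex. -/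
theorem tnS (hP : Pl H Set.univ) (T : TA H) (D : Disc H d) (top : H.Adj d.a' d.b') (hz : z ∈ d.X)
    (az : H.Adj d.a z) (ht : t ∈ d.I) (ta : H.Adj t d.a') (tb : H.Adj t d.b') (tv : H.Adj t d.a)
    (only : ∀ x ∈ d.X, H.Adj t x → x = d.a) (h0 : VR H d d.a b0) (l0 : d.ρ z < d.ρ b0)
    (hS : S ⊆ PE H d.X) (hr : ∀ e ∈ S, ∀ x ∈ e, d.ρ z ≤ d.ρ x) (hs : Pw H d d.a S) :
    ∃ o, Out H d (insert s(d.a', d.b') (insert s(d.a, z) S)) o := by
  have lz := D.px.lo_lt hz az.ne'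
  obtain ⟨s, sd, g1, g2, g3, P, R, dm, -⟩ := step_z hP D.swap D.py.ha D.py.hb
    (D.py.lt_hi D.py.ha top.ne) top (z := t) (by rwa [DD.swap_I]) ta tb
  have eY : s.d.Y = d.X := by rw [sd]; rfl
  have eX : s.d.X = d.Y := by rw [sd]; rfl
  have eρ : s.d.ρ = d.ρ := by rw [sd]; rfl
  have eI : s.d.I = d.I := by rw [sd, DD.swap_I]
  have ev : s.z = s.v := (P.ty _ P.pt.ha d.a (eY ▸ D.px.ha) (g3 ▸ tv)).1
  have vt : s.v = t := ev.symm.trans g3
  have el : s.ql = d.a := only _ (eY ▸ P.hl) (vt ▸ P.vl)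
  have ej : s.qj = d.a := only _ (eY ▸ P.hj) (vt ▸ P.vj)
  have eτ : s.τ = {s.v} := Pth.eq_single (ρ := s.σ) (by have := P.pt; rwa [ev] at this)
  have mX : ∀ x ∈ d.X, x ∈ s.dM.swap.X := fun x k =>
    Or.inr ⟨eY ▸ k, by rw [ej, eρ]; exact D.px.lo x k⟩
  have rX : ∀ x ∈ d.X, s.dM.swap.ρ x = d.ρ x := fun x k => by
    rw [← eρ]
    exact rM_not (tauY P (eY ▸ k))
  have b' : d.b' ∈ s.dM.X := ⟨eX ▸ D.py.hb, by rw [g2]⟩
  have vr : ∀ b, d.ρ d.a < d.ρ b → VR H d d.a b ∨ RR H d b →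
      (VR H d d.a b → VR H s.dM.swap d.a b) ∧
        (VR H s.dM.swap d.a b ∨ RR H s.dM.swap b) := by
    intro b lb h
    have hb : b ∈ d.X := h.elim And.left And.left
    have k : VR H d d.a b → VR H s.dM.swap d.a b := by
      rintro ⟨-, w, hw, wb, x, hx, lx, wx⟩
      refine ⟨mX b hb, w, ?_, wb, x, mX x hx, by rw [rX x hx, rX _ D.px.ha]; exact lx, wx⟩
      have n : w ∉ s.τ := fun c => by
        rw [eτ] at c
        have := only b hb (by rw [← vt, ← c]; exact wb)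
        rw [this] at lb
        omega
      have r : w ∈ s.Rg (s.lab w) := ⟨eI ▸ hw, n, rfl⟩
      have nI : b ∉ s.d.I := fun m => (DD.mem_I.1 m).2.2 (eY ▸ hb)
      have xy : b ∉ s.d.X := fun m => P.disc.xy m (eY ▸ hb)
      have r1 : w ∈ s.Rg 1 := by
        generalize s.lab w = i at r
        fin_cases i
        · rcases R.n0 ⟨w, r, wb.symm⟩ with m | (m | m) | m
          · exact absurd m.1 nI
          · exact absurd m.1 xy
          · have := m.2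
            rw [el, eρ] at this
            omega
          · exact absurd m (tauY P (eY ▸ hb))
        · exact r
        · rcases R.n2 ⟨w, r, wb.symm⟩ with m | m | m | m
          exacts [absurd m.1 nI, absurd (m ▸ P.hp) xy, absurd (m ▸ P.hp') xy,
            absurd (m ▸ P.pt.ha) (tauY P (eY ▸ hb))]
        · rcases R.n3 ⟨w, r, wb.symm⟩ with m | m | m | m | m
          · exact absurd m.1 nI
          · have := m.2.2
            rw [ej, eρ] at this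
            omega
          · exact absurd (m ▸ P.pt.hb) (tauY P (eY ▸ hb))
          · rw [m, el] at lb
            omega
          · rw [m, ej] at lb
            omega
      rw [DD.swap_I]
      have wI := DD.mem_I.1 r.1
      exact DD.mem_I.2 ⟨fun c => c (Or.inr r1), fun c => wI.2.1 c.1,
        fun c => c.elim n fun c => wI.2.2 c.1⟩
    refine ⟨k, h.imp k ?_⟩
    rintro ⟨-, y, hy, a⟩
    have hy' := hy
    rw [D.py.eq_pair top] at hy'
    rcases hy' with rfl | rfl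
    · have := (R.r0 _ ⟨eX ▸ hy, by rw [g1]⟩ b (eY ▸ hb) a.symm).2
      rw [el, eρ] at this
      omega
    · exact ⟨mX b hb, _, b', a⟩
  obtain ⟨o, O⟩ := spn hP T dm.swap (mX _ D.px.ha) (mX _ hz)
    (by rw [rX _ hz, rX _ D.px.ha]; exact lz) az ((vr b0 (by omega) (Or.inl h0)).1 h0)
    (by rw [rX _ hz, rX _ h0.1]; exact l0) (S := S) (fun f k => PE.mono mX (hS k))
    (fun f k x m => by rw [rX _ hz, rX _ (PE.ends (hS k) m)]; exact hr f k x m)
    (fun f k f' k' n => by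
      obtain ⟨b, hb, c⟩ := hs f k f' k' n
      have bX : b ∈ d.X := hb.elim And.left And.left
      have lb : ∀ g ∈ S, (∀ x ∈ g, d.ρ x ≤ d.ρ b) → d.ρ d.a < d.ρ b := fun g kg q => by
        obtain ⟨u, -, u', -, -, rfl⟩ := hS kg
        have := q u (Sym2.mem_mk_left _ _)
        have := hr _ kg u (Sym2.mem_mk_left _ _)
        omega
      refine ⟨b, (vr b (c.elim (fun c => lb f k c.1) fun c => lb f' k' c.1) hb).2, ?_⟩
      rw [rX b bX]
      exact c.imp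
        (And.imp (fun q x m => rX x (PE.ends (hS k) m) ▸ q x m)
          fun q x m => rX x (PE.ends (hS k') m) ▸ q x m)
        (And.imp (fun q x m => rX x (PE.ends (hS k') m) ▸ q x m)
          fun q x m => rX x (PE.ends (hS k) m) ▸ q x m))
    (Or.inl (show s.p' = s.d.b by rw [g2, sd]; rfl))
  have O1 : Out H s.dM (insert s(d.a, z) S) o.swap := O.swap
  obtain ⟨u, A⟩ := pa_of_eq P R dm O1.shp
    (keepY O1.shp (Or.inl rfl) (ej ▸ Sym2.mem_mk_left _ _) (Or.inr ⟨P.hj, le_rfl⟩))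
    (el.trans ej.symm)
  obtain ⟨o2, O2⟩ := step_std hP T (S := insert s(d.a', d.b') (insert s(d.a, z) S)) A O1
    (fun k => absurd (el.trans ej.symm) k) (by
      rintro f (rfl | rfl | k)
      · exact Or.inl (by rw [g1, g2])
      · exact Or.inr ⟨Or.inl rfl, Or.inr (eY ▸ mem_PE.2 ⟨D.px.ha, hz, az⟩)⟩
      · exact Or.inr ⟨Or.inr k, Or.inr (eY ▸ hS k)⟩)
  rw [sd] at O2
  exact ⟨o2.swap, O2.swap⟩

/-- Lemma N*: no common neighbour of the three first vertices sees the bottom after `z`; the top,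
the first edge and edges between virtual rungs are strict. -/
theorem nS (hP : Pl H Set.univ) (T : TA H) (D : Disc H d) (top : H.Adj d.a' d.b') (hz : z ∈ d.X)
    (az : H.Adj d.a z) (h0 : VR H d d.a b0) (l0 : d.ρ z < d.ρ b0) (hS : S ⊆ PE H d.X)
    (hr : ∀ e ∈ S, ∀ x ∈ e, d.ρ z ≤ d.ρ x) (hs : Pw H d d.a S)
    (hl : ∀ e ∈ S, ∃ b, VR H d d.a b ∧ ∀ x ∈ e, d.ρ x ≤ d.ρ b)
    (ht : ∀ t ∈ d.I, H.Adj t d.a → H.Adj t d.a' → H.Adj t d.b' → ∀ x ∈ d.X, d.ρ z < d.ρ x →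
      ¬ H.Adj t x) : ∃ o, Out H d (insert s(d.a', d.b') (insert s(d.a, z) S)) o := by
  have lz := D.px.lo_lt hz az.ne'
  have l3 := D.py.lt_hi D.py.ha top.ne
  obtain ⟨w, hw, w1, w2⟩ := apex_in hP D D.px.ha hz lz az h0 l0
  obtain ⟨s, rfl, g1, rfl, -, P, R, dm, -⟩ := step_z hP D D.px.ha hz lz az hw w1 w2
  have cY : ∀ y ∈ s.d.Y, y = s.d.a' ∨ y = s.d.b' := fun y k => by rwa [D.py.eq_pair top] at k
  rw [← g1] at hs hl h0
  rcases cY _ P.hj with ej | ej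
  · exact g1 ▸ land_a hP T P R dm top ej hS hr hs hl
  rcases cY _ P.hl with el | el
  · have tI := P.ti P.pt.hb
    have ta : H.Adj s.v s.d.a' := el ▸ P.vl
    have tb : H.Adj s.v s.d.b' := ej ▸ P.vj
    have tv : H.Adj s.v s.d.a := by
      obtain ⟨x, hx, lx, ax⟩ := P.tn _ P.pt.hb
      rw [g1] at lx
      exact D.px.inj _ hx _ D.px.ha (le_antisymm lx (D.px.lo x hx)) ▸ ax
    refine tnS hP T D top hz az tI ta tb tv (fun x hx ax => ?_) (g1 ▸ h0) l0 hS hr (g1 ▸ hs)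
    by_contra n
    have l1 := D.px.lo_lt hx n
    have l2 := D.px.nb D.px.ha hz az hx
    have l4 : s.d.ρ x ≤ s.d.ρ s.p' := not_lt.1 fun k => ht _ tI tv ta tb x hx k ax
    obtain ⟨hb, u, hu, ub, y, hy, ly, uy⟩ := h0
    have uT := mem_tau P R hu hy ly uy hb l0 ub
    have ne : u ≠ s.v := fun c => ht _ tI tv ta tb b0 hb l0 (c ▸ ub)
    have lu := P.pt.lt_hi uT ne
    exact (dm.theta hP (p := b0) ⟨hb, l0.le⟩ (q := u) (Or.inl uT) (T := ∅) (E := ∅)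
      (Set.empty_subset _) isConn_empty (Or.inl ub.symm) (Set.empty_subset _) isConn_empty
      (Set.disjoint_empty _) (x := x) (y := s.v)
      (Or.inl ⟨⟨hx, by omega⟩, by rw [rM_not (tauX P hx), rM_not (tauX P hb)]; omega⟩)
      (Or.inr ⟨Or.inl P.pt.hb, by rw [rM_tau uT, rM_tau P.pt.hb]; omega⟩)).1 ax.symm
  · have eq : s.ql = s.qj := el.trans ej.symm
    obtain ⟨o1, O1⟩ := T s.dM S dm (admM P R hS hr hs)
    obtain ⟨u0, A⟩ := pa_of_eq P R dm O1.shp (ej ▸ O1.shp.py.hb) eq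
    obtain ⟨o2, O2⟩ := fan1 hP T (A.dl hP).1 (show s.d.a = s.p from g1.symm) A.admL
      (e := s(s.d.a', s.d.b'))
      (mem_PE.2 ⟨Or.inl ⟨D.py.ha, by rw [el]; omega⟩, Or.inl ⟨D.py.hb, by rw [el]⟩, top⟩)
    refine ⟨_, step_gen hP T A O1 O2 (fun k => absurd eq k) (Set.subset_insert _ _) ?_⟩
    rintro f (rfl | rfl | k)
    exacts [Or.inr ⟨Or.inr (Or.inl rfl), Or.inr (mem_PE.2 ⟨D.py.ha, D.py.hb, top⟩)⟩,
      Or.inl (by rw [g1]), Or.inr ⟨Or.inl k, Or.inl (hS k)⟩]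

theorem ox_of (D : Disc H d) (top : H.Adj d.a' d.b') {S' : Set (Sym2 W)} {o : OD W}
    (O : Out H d S' o) (m : s(d.a', d.b') ∈ S') (s : S ⊆ S') (hS : S ⊆ PE H d.X) :
    ∃ X' P, OutX H d S X' P fun _ _ => True :=
  ⟨_, _, (out_top2 D O top s hS).imp' fun _ _ _ _ => Or.inl m⟩

theorem pair_sub {A : Set (Sym2 W)} (h : e ∈ A) (h' : e' ∈ A) : {e, e'} ⊆ A := by
  rintro _ (rfl | rfl)
  exacts [h, h']

/-- a corner sees both top vertices -/
theorem oxV (hP : Pl H Set.univ) (T : TA H) (D : Disc H d) (top : H.Adj d.a' d.b')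
    (v : H.Adj d.a d.b' ∨ H.Adj d.b d.a') (he : e ∈ PE H d.X) (he' : e' ∈ PE H d.X) :
    ∃ X' P, OutX H d {e, e'} X' P fun _ _ => True := by
  rcases v with v | v
  · obtain ⟨o, O⟩ := anyV hP T D top v he he'
    exact ox_of D top O (Or.inr (Or.inr rfl)) (pair_sub (Or.inl rfl) (Or.inr (Or.inl rfl)))
      (pair_sub he he')
  · obtain ⟨o, O⟩ := anyV hP T (disc_rv D) top.symm v he he'
    obtain ⟨X', P, k⟩ := ox_of (disc_rv D) top.symm O (Or.inr (Or.inr rfl))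
      (pair_sub (Or.inl rfl) (Or.inr (Or.inl rfl))) (pair_sub he he')
    exact ⟨X', P, k.rv'⟩

/-- The top is an edge, the bottom ends with `q`, `z`, `d.b`, and `r r'` is an earlier edge. -/
structure Tq (H : SimpleGraph W) (d : DD W) (r r' q z : W) : Prop extends Tr H d z q z where
  hr : r ∈ d.X
  hr' : r' ∈ d.X
  rr : H.Adj r r'
  l3 : d.ρ r < d.ρ r'
  l4 : d.ρ r' ≤ d.ρ q

variable {r r' q u : W}

theorem Tq.sub (h : Tq H d r r' q z) : {s(r, r'), s(q, z)} ⊆ PE H d.X :=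
  pair_sub (mem_PE.2 ⟨h.hr, h.hr', h.rr⟩) (mem_PE.2 ⟨h.hq, h.hz, h.qq⟩)

theorem Tq.sub3 (h : Tq H d r r' q z) : {s(r, r'), s(q, z), s(z, d.b)} ⊆ PE H d.X := by
  rintro _ (rfl | rfl | rfl)
  exacts [h.sub (Or.inl rfl), h.sub (Or.inr rfl), mem_PE.2 ⟨h.hz, h.disc.px.hb, h.zb⟩]

theorem vr_rv (D : Disc H d) (hu : u ∈ d.I) (ub : H.Adj u d.b) (hp : p ∈ d.X) (up : H.Adj u p) :
    VR H (rvD d) (rvD d).a p := ⟨hp, u, hu, up, d.b, D.px.hb, le_rfl, ub⟩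

theorem Tq.pw (h : Tq H d r r' q z) (hu : u ∈ d.I) (ub : H.Adj u d.b) (hp : p ∈ d.X)
    (up : H.Adj u p) (l : d.ρ r' ≤ d.ρ p) (l' : d.ρ p ≤ d.ρ q) :
    (∀ e ∈ ({s(q, z), s(r, r')} : Set (Sym2 W)), ∀ x ∈ e, (rvD d).ρ z ≤ (rvD d).ρ x) ∧
      Pw H (rvD d) (rvD d).a {s(q, z), s(r, r')} := by
  have := h.l1
  have := h.l3
  have := h.l4
  refine ⟨?_, pw_two (vr_rv h.disc hu ub hp up) (both ?_ ?_) (both ?_ ?_)⟩
  · rintro _ (rfl | rfl) <;> refine both ?_ ?_ <;> change 0 - _ ≤ 0 - _ <;> omega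
  all_goals
    change 0 - _ ≤ 0 - _
    omega

theorem ox_three (h : Tq H d r r' q z) {o : OD W} (O : Out H (rvD d) (insert s(d.b', d.a')
    (insert s(d.b, z) {s(q, z), s(r, r')})) o) :
    ∃ X' P, OutX H d {s(r, r'), s(q, z), s(z, d.b)} X' P fun _ _ => True := by
  refine ox_of h.disc h.top (out_rv O) (Or.inl Sym2.eq_swap) ?_ h.sub3
  rintro _ (rfl | rfl | rfl)
  exacts [Or.inr (Or.inr (Or.inr rfl)), Or.inr (Or.inr (Or.inl rfl)), Or.inr (Or.inl Sym2.eq_swap)]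

/-- Case TN with an anchored inner neighbour `u` of the last bottom vertex. -/
theorem Tq.oxTN (hP : Pl H Set.univ) (T : TA H) (h : Tq H d r r' q z) (ht : t ∈ d.I)
    (ta : H.Adj t d.a') (tb : H.Adj t d.b') (tv : H.Adj t d.b)
    (only : ∀ x ∈ d.X, H.Adj t x → x = d.b) (hu : u ∈ d.I) (ub : H.Adj u d.b) (hp : p ∈ d.X)
    (up : H.Adj u p) (lp : d.ρ p ≤ d.ρ q) :
    ∃ X' P, OutX H d {s(r, r'), s(q, z)} X' P fun _ _ => True := by
  have D := h.disc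
  have l1 := h.l1
  have l3 := h.l3
  have l4 := h.l4
  have l5 := D.px.lt_hi h.hz h.zb.ne
  rcases (D.px.adj _ h.hr _ h.hr' l3).1 h.rr p hp with l | l
  · have V : VR H d r d.b := ⟨D.px.hb, u, hu, ub, p, hp, by omega, up⟩
    obtain ⟨o, O⟩ := spt hP T D h.top h.hr h.hr' l3 h.rr V (by omega) (S := {s(q, z)})
      (fun _ k => h.sub (Or.inr k)) (by rintro _ rfl; exact both l4 (by omega)) pw_one
      (by rintro _ rfl; exact ⟨_, V, both (by omega) (by omega)⟩) fun w hw wb x hx lx wx => by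
        have n : w ≠ t := fun c => by
          rw [only x hx (c ▸ wx)] at lx
          omega
        exact (D.theta hP D.px.hb D.py.ha (T := {t}) (E := {w}) (by rintro _ rfl; exact ht)
          (isConn_single t) (Or.inr ⟨⟨t, rfl, tv.symm⟩, ⟨t, rfl, ta.symm⟩⟩)
          (by rintro _ rfl; exact hw) (isConn_single w) (Set.disjoint_singleton.2 n) (x := x)
          (y := d.b') (Or.inl ⟨hx, by omega⟩)
          (Or.inr ⟨D.py.hb, D.py.lt_hi D.py.ha h.top.ne⟩)).2 ⟨⟨w, rfl, wx.symm⟩, ⟨w, rfl, wb.symm⟩⟩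
    exact ox_of D h.top O (Or.inl rfl) (fun _ k => Or.inr k) h.sub
  · obtain ⟨k1, k2⟩ := h.pw hu ub hp up (by omega) lp
    obtain ⟨o, O⟩ := tnS hP T (disc_rv D) h.top.symm h.hz h.zb.symm ht tb ta tv only
      (vr_rv D hu ub hp up) (by change 0 - _ < 0 - _; omega)
      (pair_sub (h.sub (Or.inr rfl)) (h.sub (Or.inl rfl))) k1 k2
    obtain ⟨X', P, k⟩ := ox_three h O
    exact ⟨X', P, k.mono (pair_sub (Or.inl rfl) (Or.inr (Or.inl rfl)))⟩

/-- Case N: the edge `r r'` lies between two anchors of inner neighbours of the last vertex. -/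
theorem Tq.oxN (hP : Pl H Set.univ) (T : TA H) (h : Tq H d r r' q z) {u' : W} (hu : u ∈ d.I)
    (ub : H.Adj u d.b) (hp : p ∈ d.X) (up : H.Adj u p) (lp : d.ρ p ≤ d.ρ r) (hu' : u' ∈ d.I)
    (ub' : H.Adj u' d.b) (hp' : p' ∈ d.X) (up' : H.Adj u' p') (l : d.ρ r' ≤ d.ρ p')
    (l' : d.ρ p' ≤ d.ρ q)
    (ht : ∀ t ∈ d.I, H.Adj t d.b → H.Adj t d.a' → H.Adj t d.b' → ∀ x ∈ d.X, d.ρ x < d.ρ z →
      ¬ H.Adj t x) : ∃ X' P, OutX H d {s(r, r'), s(q, z), s(z, d.b)} X' P fun _ _ => True := by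
  have D := h.disc
  have l1 := h.l1
  have l3 := h.l3
  have l4 := h.l4
  obtain ⟨k1, k2⟩ := h.pw hu' ub' hp' up' l l'
  obtain ⟨o, O⟩ := nS hP T (disc_rv D) h.top.symm h.hz h.zb.symm (vr_rv D hu ub hp up)
    (by change 0 - _ < 0 - _; omega) (pair_sub (h.sub (Or.inr rfl)) (h.sub (Or.inl rfl))) k1 k2
    (by
      rintro _ (rfl | rfl) <;> refine ⟨p, vr_rv D hu ub hp up, both ?_ ?_⟩ <;>
        change 0 - _ ≤ 0 - _ <;> omega)
    fun t k a1 a2 a3 x hx lx => ht t k a1 a3 a2 x hx (by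
      change 0 - _ < 0 - _ at lx
      omega)
  exact ox_three h O

section

open FE FN PkPrtP

variable {J : Type} {F : FD J} {X : XD J} {Pr : Set (Vx J)} {M : MU J} {p : PD J}
  {Ok : Un J → Prop} {d : DD (Vx J)} {S : Set (Sym2 (Vx J))} {V R : Set (Vx J)} {u : Un J}

/-- edges that are strict together with every single edge of the top cost nothing -/
theorem sl_any (hF : Lay F X Pr) (hM : MVal F X Pr M) (hd : MC F X M d V R) (hu : M.us = {u})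
    (hS : S ⊆ PE F.Γ d.X) (k : ∀ f ∈ PE F.Γ d.Y, ∃ o, Out F.Γ d (insert f S) o) :
    Sl F p Ok M d S ∅ := by
  have mu : u ∈ M.us := hu ▸ rfl
  obtain ⟨vu, e1, e2⟩ := one_ends hF hM hu
  have ea : d.a' = u.s := hd.ea'.trans e1.symm
  have eb : d.b' = u.s' := hd.eb'.trans e2.symm
  by_cases t : u.x = u.s
  · obtain ⟨o, O⟩ := k _ (mem_PE.2 ⟨hd.disc.py.ha, hd.disc.py.hb, one_edge hF hM hu hd t⟩)
    exact (sl_st hF hM hd hu t O (Or.inl rfl) (Set.subset_insert _ _) hS).mono subset_rfl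
      (Set.empty_subset _)
  have b := one_cap hF hM hu hd t
  by_cases q : p.cx u = p.c u.s.1
  · obtain ⟨o, O⟩ := k _ b.m2
    refine ⟨_, _, _, b.out2 O (Or.inl rfl) (Set.subset_insert _ _) hS, Set.empty_subset _,
      fun _ σ c hc _ => Or.inr (Or.inl ?_)⟩
    simp only [ea, (hc u mu).2.2 t, (hc u mu).1, q]
  · obtain ⟨o, O⟩ := k _ b.m1
    refine ⟨_, _, _, b.out1 O (Or.inl rfl) (Set.subset_insert _ _) hS, Set.empty_subset _,
      fun _ σ c hc _ => Or.inr ?_⟩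
    by_cases q' : p.cx u = p.c u.s'.1
    · left
      simp only [eb, (hc u mu).2.2 t, (hc u mu).2.1, q']
    · exact Or.inr (Or.inl (Or.inr (Or.inl ⟨u, mu, t, Or.inr ⟨rfl, q, q'⟩⟩)))

/-- Lemma FAN: a rung at the left end of the top separates the edge, also under a cap. -/
theorem sl_fan (hF : Lay F X Pr) (hM : MVal F X Pr M) (hd : MC F X M d V R) (hu : M.us = {u})
    {e : Sym2 (Vx J)} {t : Vx J} (he : e ∈ PE F.Γ d.X) (ht : t ∈ d.X) (r : F.Γ.Adj M.s t)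
    (k : ∀ x ∈ e, d.ρ x ≤ d.ρ t) : Sl F p Ok M d {e} ∅ :=
  sl_any hF hM hd hu (Set.singleton_subset_iff.2 he) fun _ hf =>
    all_T _ _ hF.fine.pl d _ hd.disc (adm_pair (Or.inr hf) (Or.inl he)
      (sepA hd.disc ht (hd.ea' ▸ r.symm) (fun y m => ⟨PE.ends he m, k y m⟩) hf).symm)

theorem sl_fan' (hF : Lay F X Pr) (hM : MVal F X Pr M) (hd : MC F X M d V R) (hu : M.us = {u})
    {e : Sym2 (Vx J)} {t : Vx J} (he : e ∈ PE F.Γ d.X) (ht : t ∈ d.X) (r : F.Γ.Adj M.s' t)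
    (k : ∀ x ∈ e, d.ρ t ≤ d.ρ x) : Sl F p Ok M d {e} ∅ :=
  sl_any hF hM hd hu (Set.singleton_subset_iff.2 he) fun _ hf =>
    all_T _ _ hF.fine.pl d _ hd.disc (adm_pair (Or.inr hf) (Or.inl he)
      (sepB hd.disc ht (hd.eb' ▸ r.symm) (fun y m => ⟨PE.ends he m, k y m⟩) hf).symm)

end

end Pool.Agent.P.MP_08fd93_co.FP
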