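import Pool.Agent.P.MP_08fd93_co.FP2.R3
import Pool.Agent.P.MP_08fd93_co.FK.K6
import Pool.Agent.P.MP_08fd93_co.FP.L6

/-! Short tails: the statements of the modes and of the leaves. -/

set_option autoImplicit false

namespace Pool.Agent.P.MP_08fd93_co.FP

open OV FB FP2

variable {J : Type}

/-- The edges `S` are strict together with the top edge `e`. -/
def Free (G : TD J) (e : Vx J) (S : Set (Sym2 (Vx J))) : Prop :=
  ∃ X Q, OutX G.Γ (Bd G e) S X Q fun _ _ => True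

/-- The flow from `l` can be closed when `x` is the source of the row zero. -/
def Arr (G : TD J) (φ : Vx J → Vx J) (l x : Vx J) : Prop :=
  (∀ b, G.η b ≠ 2) ∨ (φ l).1 ≠ x.1 ∨ ¬ ExT G (φ l) s(l, G.nx l)

/-- The neck sees both ends of `l`; the next vertex is a child of the head. -/
def TPL (G : TD J) (v z l : Vx J) : Prop :=
  G.an (G.nx l) = z ∧ G.Γ.Adj l z ∧ G.Γ.Adj (G.nx l) v ∧ G.an (G.nx (G.nx l)) = v

/-- The mirror image: `c` and `r` are the last two top edges over the tail. -/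
def TPR (G : TD J) (v z c r : Vx J) : Prop :=
  G.an r = z ∧ G.Γ.Adj (G.nx r) z ∧ G.Γ.Adj r v ∧ G.nx c = r

/-- No vertex inside a cell on the right sees the head and the right foot. -/
def HF (G : TD J) (v z : Vx J) : Prop :=
  ∀ s s', Iv G s s' → G.an s = v → ¬ Hub G s s' v (G.xr z)

/-- A property of a frame with one orbit of short tails that gives a colouring. -/
def Md (P : ∀ {J : Type}, TD J → (Vx J → Vx J) → Vx J → Vx J → Vx J → Vx J → Vx J → Vx J → Prop) :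
    Prop :=
  ∀ (J : Type) [Fintype J] (G : TD J) (φ : Vx J → Vx J) (v z la lb lc ld : Vx J),
    TQ G v z la lb lc ld → FP2.Sl G.Γ G.η → FK.PH (FT G) G.Pr φ → P G φ v z la lb lc ld →
    ∃ c, Col1 G.Γ ∅ c

def S_I : Prop := Md fun G φ v z la _ _ _ => G.an (G.nx la) = v ∧ G.an la ∉ G.V ∧ ∃ y ∈ G.L 0,
  G.nx y = G.xl z ∧ φ y = la ∧ Free G la {s(y, G.xl z), s(v, z)} ∧ Arr G φ la y

def S_II : Prop := Md fun G φ v z la _ _ _ => G.an (G.nx la) = v ∧
  Free G la {s(z, G.xl z), s(v, z)} ∧ (φ (G.xr z)).1 ≠ la.1 ∧ HF G v z ∧ Arr G φ la (G.xr z)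

def S_E : Prop := Md fun G φ v z la _ _ _ => G.an (G.nx la) = v ∧ (∃ b, G.η b = 2) ∧
  (G.an la).1 = (G.xr z).1 ∧ (G.nx (φ la)).1 = (G.xl z).1 ∧ ∃ x ∈ G.L 0, φ x = la ∧
    x.1 ≠ (φ la).1 ∧ Free G la {s(x, G.nx x), s(z, G.xl z)}

/-- The cell under `l` ends with the tail and contains an edge of the row. -/
structure LC (G : TD J) (v z l : Vx J) : Prop where
  kid : G.an (G.nx l) = v
  rung : G.an l ∉ G.V
  lt : G.ρ (G.an l) < G.ρ (G.xl z)

/-- An inner neighbour of the head has an anchor left of the left foot; no common neighbour of the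
head and the top has an anchor. -/
def NT (G : TD J) (v z l : Vx J) : Prop :=
  (∃ u ∈ (Bd G l).I, G.Γ.Adj u v ∧ ∃ p ∈ G.L 0, G.ρ (G.an l) ≤ G.ρ p ∧ G.ρ p < G.ρ (G.xl z) ∧
    G.Γ.Adj u p) ∧ ∀ t ∈ (Bd G l).I, G.Γ.Adj t v → G.Γ.Adj t l → G.Γ.Adj t (G.nx l) →
      ∀ x ∈ G.L 0, ¬ G.Γ.Adj t x

/-- A good frame. -/
def GD (G : TD J) (v z l : Vx J) : Prop := LC G v z l ∧ (G.Γ.Adj l v ∨ NT G v z l) ∧ HF G v z

/-- The whole row zero lies under the translates of `l`. -/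
def Wrap (G : TD J) (z l : Vx J) : Prop := (G.an l).1 = (G.xr z).1

/-- good, no wrap -/
def S_G0 : Prop := Md fun G _ v z la _ _ _ => GD G v z la ∧ ¬ Wrap G z la

/-- good with a strong left side -/
def S_G1 : Prop := Md fun G _ v z la _ _ _ => GD G v z la ∧ (G.Γ.Adj la v ∨
  ∃ t ∈ (Bd G la).I, G.Γ.Adj t v ∧ ((G.Γ.Adj t la ∧ G.Γ.Adj t (G.nx la)) ∨ G.Γ.Adj t (G.an la)))

/-- good, the neck sees both ends of the right top edge -/
def S_G2 : Prop := Md fun G _ v z la _ lc ld => GD G v z la ∧ TPR G v z lc ld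

/-- both neighbours of the children on the row see the head -/
def S_VV : Prop := Md fun G _ v z la _ _ ld => LC G v z la ∧ G.Γ.Adj la v ∧ G.an ld = v ∧
  G.an (G.nx ld) ∉ G.V ∧ G.Γ.Adj (G.nx ld) v

end Pool.Agent.P.MP_08fd93_co.FP
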