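import Pool.Agent.P.MP_08fd93_co.FP.P0

/-! Short tails: the good frames. -/

set_option autoImplicit false

namespace Pool.Agent.P.MP_08fd93_co.FP

open OV FB FP2 FS

section disc

variable {W : Type} {H : SimpleGraph W} {d : DD W} {r r' q z t u p : W}

/-- an inner vertex that sees the top cannot see the bottom inside the span of another one -/
theorem no_cross (hP : Pl H Set.univ) (D : Disc H d) (ht : t ∈ d.I) (ta : H.Adj t d.a')
    (hu : u ∈ d.I) (n : u ≠ t) {x y : W} (hp : p ∈ d.X) (hx : x ∈ d.X) (hy : y ∈ d.X)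
    (l : d.ρ p < d.ρ x) (l' : d.ρ x < d.ρ y) (up : H.Adj u p) (uy : H.Adj u y) : ¬ H.Adj t x :=
  fun a => (D.theta hP hx D.py.ha (T := {t}) (E := {u}) (by rintro _ rfl; exact ht)
    (isConn_single t) (Or.inr ⟨⟨t, rfl, a.symm⟩, ⟨t, rfl, ta.symm⟩⟩) (by rintro _ rfl; exact hu)
    (isConn_single u) (Set.disjoint_singleton.2 n) (x := p) (y := y) (Or.inl ⟨hp, l⟩)
    (Or.inl ⟨hy, l'⟩)).2 ⟨⟨u, rfl, up.symm⟩, ⟨u, rfl, uy.symm⟩⟩

/-- a common neighbour of the top and of the last vertex has no anchor -/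
theorem Tq.oxT (hP : Pl H Set.univ) (T : TA H) (h : Tq H d r r' q z) (ht : t ∈ d.I)
    (ta : H.Adj t d.a') (tb : H.Adj t d.b') (tv : H.Adj t d.b)
    (no : ∀ x ∈ d.X, d.ρ x < d.ρ z → ¬ H.Adj t x) (hu : u ∈ d.I) (ub : H.Adj u d.b) (hp : p ∈ d.X)
    (up : H.Adj u p) (lp : d.ρ p ≤ d.ρ q) :
    ∃ X' P, OutX H d {s(r, r'), s(q, z)} X' P fun _ _ => True := by
  have D := h.disc
  have l1 := h.l1
  have l5 := D.px.lt_hi h.hz h.zb.ne
  refine h.oxTN hP T ht ta tb tv (fun x hx a => ?_) hu ub hp up lp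
  rcases (D.px.adj _ h.hz _ D.px.hb l5).1 h.zb x hx with l | l
  · obtain rfl : x = z := D.px.inj _ hx _ h.hz (le_antisymm l (not_lt.1 fun k => no x hx k a))
    exact absurd a (no_cross hP D ht ta hu (fun c => no p hp (by omega) (c ▸ up)) hp hx D.px.hb
      (by omega) l5 up ub)
  · exact D.px.inj _ hx _ D.px.hb (le_antisymm (D.px.hi x hx) l)

/-- an inner vertex sees both ends of the bottom: the first edge -/
theorem Tq.oxF (hP : Pl H Set.univ) (T : TA H) (h : Tq H d d.a r' q z) (hu : u ∈ d.I)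
    (ua : H.Adj u d.a) (ub : H.Adj u d.b)
    (no : ∀ t ∈ d.I, H.Adj t d.b → H.Adj t d.a' → H.Adj t d.b' → ¬ H.Adj t d.a) :
    ∃ X' P, OutX H d {s(d.a, r'), s(q, z)} X' P fun _ _ => True := by
  have D := h.disc
  have l1 := h.l1
  have l3 := h.l3
  have l4 := h.l4
  have l5 := D.px.lt_hi h.hz h.zb.ne
  have V : VR H d d.a d.b := ⟨D.px.hb, u, hu, ub, _, D.px.ha, le_rfl, ua⟩
  obtain ⟨o, O⟩ := nS hP T D h.top h.hr' h.rr V (by omega) (S := {s(q, z)})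
    (fun _ k => h.sub (Or.inr k)) (by rintro _ rfl; exact both l4 (by omega)) pw_one
    (by rintro _ rfl; exact ⟨_, V, both (by omega) (by omega)⟩) fun t ht a a' b' x hx l ax => by
      by_cases c : x = d.b
      · exact no t ht (c ▸ ax) a' b' a
      · exact no_cross hP D ht a' hu (fun e => no t ht (e ▸ ub) a' b' a) D.px.ha hx D.px.hb
          (by omega) (D.px.lt_hi hx c) ua ub ax
  exact ox_of D h.top O (Or.inl rfl) (fun _ k => Or.inr k) h.sub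

end disc

variable {J : Type} {G : TD J} {φ : Vx J → Vx J} {v z la lb lc ld x y q : Vx J}

section

variable (h : TQ G v z la lb lc ld) (c : LC G v z la)
include h c

theorem LC.xo : G.xl (G.an la) = G.an la ∧ G.xr (G.an la) = G.an la ∧ G.nk la = G.an la :=
  h.st.tf.xo _ c.rung

theorem LC.a0 : G.an la ∈ G.L 0 := h.st.tf.an_l h.ord.1 (h.st.pr _) c.rung

theorem LC.xl : G.xl (G.an (G.nx la)) = G.xl z := (h.x_nk h.ha.2).1

/-- the row vertices on the bottom -/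
theorem LC.row (hx : x ∈ G.L 0) (l : G.ρ (G.an la) ≤ G.ρ x) (l' : G.ρ x ≤ G.ρ (G.xl z)) :
    x ∈ (Bd G la).X ∧ (Bd G la).ρ x = G.ρ x :=
  ⟨h.st.bt_of h.ord.1 h.ha.1.2.2 hx (by rwa [(c.xo h).2.1]) (by rwa [c.xl h]),
    tord_old (h.st.tf.l_nv hx)⟩

theorem LC.nz : z ∈ (Bd G la).X ∧ (Bd G la).ρ z = G.ρ (G.xl z) + 1 := by
  have n := h.ha.1.2.2
  have := tord_n' (G := G) (s := la) (s' := G.nx la) (h.ha.2 ▸ h.zV)
    (fun e => c.rung (e ▸ h.ha.2 ▸ h.zV)) (by rw [h.ha.2, c.kid]; exact h.vz.ne') n.symm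
  rw [h.ha.2, c.xl h] at this
  exact ⟨h.ha.2 ▸ (bt_n n).2, this⟩

theorem LC.b : (Bd G la).b = v := c.kid

/-- a vertex of the bottom before the neck lies on the row -/
theorem LC.low (hx : x ∈ (Bd G la).X) (l : (Bd G la).ρ x < (Bd G la).ρ z) : x ∈ G.L 0 := by
  obtain ⟨n1, n2, -⟩ := h.rows.nx_mem h.ord.1
  by_cases k : x ∈ G.V
  · exfalso
    rcases h.st.tf.bt_v hx k with m | m
    · exact c.rung (h.st.tf.ct_v m)
    rcases m.1 with m | m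
    · have := (h.st.bd_disc h.ha.1.1).px.hi z (c.nz h).1
      rw [show (Bd G la).b = x from m.symm] at this
      omega
    · rw [show x = z from m.trans h.ha.2] at l
      omega
  · exact (h.st.tf.bt_line h.ord.1 (h.st.pr _) n1 (h.st.pr _) (by omega) hx k).1

theorem LC.tr0 : Tr G.Γ (Bd G la) z (G.xl z) z := by
  obtain ⟨f0, fz⟩ := h.feet.1
  obtain ⟨a, b⟩ := c.row h f0 c.lt.le le_rfl
  exact ⟨h.st.bd_disc h.ha.1.1, h.st.bd_st h.ha.1.1, (c.nz h).1, c.b h ▸ h.vz.symm, a, (c.nz h).1,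
    fz.symm, by rw [b, (c.nz h).2]; omega, le_rfl⟩

theorem LC.tq (hx : x ∈ G.L 0) (l : G.ρ (G.an la) ≤ G.ρ x) (l' : G.ρ x < G.ρ (G.xl z)) :
    Tq G.Γ (Bd G la) x (G.nx x) (G.xl z) z := by
  obtain ⟨n1, n2, n3⟩ := h.rows.nx_mem hx
  obtain ⟨a, b⟩ := c.row h hx l l'.le
  obtain ⟨a', b'⟩ := c.row h n1 (by omega) (by omega)
  exact ⟨c.tr0 h, a, a', n3, by omega, by rw [b', (c.row h h.feet.1.1 c.lt.le le_rfl).2]; omega⟩

theorem LC.phi (hφ : FK.PH (FT G) G.Pr φ) (hx : x ∈ G.L 0) (l : G.ρ (G.an la) ≤ G.ρ x)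
    (l' : G.ρ x < G.ρ (G.xl z)) : φ x = la ∧ ¬ Chd G x :=
  (h.st.und_iff hφ h.ha.1.1 (h.rows.la hx)).1 ((c.tq h hx l l').sub (Or.inl rfl))

theorem LC.lh (k : G.Γ.Adj la v ∨ NT G v z la) (hq : q ∈ G.L 0) (l : G.ρ (G.xl z) - 1 ≤ G.ρ q)
    (l' : G.ρ q ≤ G.ρ (G.xl z)) : LH G.Γ (Bd G la) z q := by
  have lt := c.lt
  rcases k with k | ⟨⟨u, hu, uv, p, hp, p1, p2, up⟩, k⟩
  · exact Or.inl (c.b h ▸ k.symm)
  have e := (c.row h hq (by omega) l').2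
  obtain ⟨a, b⟩ := c.row h hp p1 p2.le
  refine Or.inr (Or.inr (Or.inr (Or.inr ⟨⟨u, hu, c.b h ▸ uv, p, a, by omega, up⟩,
    fun t ht t1 t2 t3 x hx m => k t ht (c.b h ▸ t1) t2 t3 x (c.low h hx ?_)⟩)))
  rw [(c.nz h).2]
  omega

/-- both edges of the tail -/
theorem LC.free_ab (k : G.Γ.Adj la v ∨ NT G v z la) : Free G la {s(z, G.xl z), s(v, z)} := by
  have hP := h.st.lay.fine.pl
  obtain ⟨X, Q, O⟩ := leftX hP (all_T _ _ hP) (c.tr0 h) (c.lh h k h.feet.1.1 (by omega) le_rfl)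
  exact ⟨X, Q, O.mono (pair_sub (Or.inl Sym2.eq_swap) (Or.inr (c.b h ▸ Sym2.eq_swap)))⟩

/-- the last edge of the row and the edge at the head -/
theorem LC.free_yb (k : G.Γ.Adj la v ∨ NT G v z la) (hy : y ∈ G.L 0) (e : G.nx y = G.xl z) :
    Free G la {s(y, G.xl z), s(v, z)} := by
  have hP := h.st.lay.fine.pl
  have lt := c.lt
  have n := (h.rows.nx_mem hy).2.1
  rw [e] at n
  have t := c.tq h hy (by omega) (by omega)
  rw [e] at t
  obtain ⟨X, Q, O⟩ := leftX hP (all_T _ _ hP)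
    (⟨t.disc, t.top, t.hz, t.zb, t.hr, t.hr', t.rr, t.l3, t.l1.le⟩ : Tr _ _ z y (G.xl z))
    (c.lh h k hy (by omega) (by omega))
  exact ⟨X, Q, O.mono (pair_sub (Or.inl rfl) (Or.inr (c.b h ▸ Sym2.eq_swap)))⟩

/-- the first edge of the row and the edge at the foot -/
theorem LC.free_xa (k : G.Γ.Adj la v ∨ NT G v z la) (k' : G.Γ.Adj la v ∨ ∃ t ∈ (Bd G la).I,
    G.Γ.Adj t v ∧ ((G.Γ.Adj t la ∧ G.Γ.Adj t (G.nx la)) ∨ G.Γ.Adj t (G.an la))) :
    Free G la {s(G.an la, G.nx (G.an la)), s(z, G.xl z)} := by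
  have hP := h.st.lay.fine.pl
  have T := all_T _ _ hP
  have t := c.tq h (c.a0 h) le_rfl c.lt
  suffices ∃ X Q, OutX G.Γ (Bd G la) {s(G.an la, G.nx (G.an la)), s(G.xl z, z)} X Q
      fun _ _ => True by
    obtain ⟨X, Q, O⟩ := this
    exact ⟨X, Q, O.mono (pair_sub (Or.inl rfl) (Or.inr Sym2.eq_swap))⟩
  by_cases a : G.Γ.Adj la v
  · exact oxV hP T t.disc t.top (Or.inr (c.b h ▸ a.symm)) (t.sub (Or.inl rfl)) (t.sub (Or.inr rfl))
  obtain ⟨⟨u, hu, uv, p, hp, p1, p2, up⟩, no⟩ := k.resolve_left a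
  obtain ⟨w, hw, wv, m | m⟩ := k'.resolve_left a
  · obtain ⟨a1, a2⟩ := c.row h hp p1 p2.le
    exact t.oxT hP T hw m.1 m.2 (c.b h ▸ wv) (fun x hx l => no w hw wv m.1 m.2 x (c.low h hx l))
      hu (c.b h ▸ uv) a1 up (by rw [a2, (c.row h h.feet.1.1 c.lt.le le_rfl).2]; omega)
  · exact Tq.oxF (d := Bd G la) hP T t hw m (c.b h ▸ wv)
      fun s hs s1 s2 s3 => no s hs (c.b h ▸ s1) s2 s3 _ (c.a0 h)

/-- the edge at the right foot lies under a translate of `la` only if the frame wraps -/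
theorem LC.wrap (hφ : FK.PH (FT G) G.Pr φ) (e : (φ (G.xr z)).1 = la.1) : Wrap G z la := by
  have R := h.rows
  obtain ⟨⟨f0, -⟩, ⟨f1, -⟩, f2, -⟩ := h.feet
  obtain ⟨p1, -, p2⟩ := h.phi hφ f1
  have u : G.ρ (G.xl (G.an (φ (G.xr z)))) ≤ G.ρ (G.xr z) := (hφ.und _ (R.la f1)).2.2.1
  have le : G.ρ (G.xl z) ≤ G.ρ (G.xr z) := by
    rcases f2 with m | m <;> rw [m]
    have := (R.nx_mem f0).2.1
    omega
  obtain ⟨a, ha⟩ : ∃ a, φ (G.xr z) = tr a la := ⟨_, FZ.orb_eq e⟩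
  have nv : G.an (φ (G.xr z)) ∉ G.V := by
    rw [ha, h.st.tf.atr, h.st.tf.k_tr]
    exact c.rung
  have m := (h.st.tf.mono h.ord.2.2.2.1 (h.st.pr _) p1 (h.st.pr _) (p2 le)).resolve_left fun m =>
    nv (h.st.tf.nk_v.1 (m ▸ h.hd.2 ▸ h.zV))
  rw [(h.x_nk h.hd.2).2] at m
  rw [(h.st.tf.xo _ nv).1] at m u
  have := R.inj (h.st.tf.an_l p1 (h.st.pr _) nv) f1 (le_antisymm u m)
  rw [ha, h.st.tf.atr] at this
  have e2 := congrArg Prod.fst this
  exact e2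

end

/-- the edge that ends at the left foot -/
theorem y_ex (h : TQ G v z la lb lc ld) : ∃ y ∈ G.L 0, G.nx y = G.xl z ∧
    G.ρ y = G.ρ (G.xl z) - 1 ∧ y.1 ≠ (G.xr z).1 := by
  obtain ⟨⟨f0, -⟩, ⟨f1, -⟩, f2, -⟩ := h.feet
  obtain ⟨y1, y2, y3⟩ := FK.pv_mem h.st.lay f0
  refine ⟨_, y1, y3, y2, fun e => ?_⟩
  obtain ⟨k, -, m⟩ := FK.same_cls h.st.lay y1 f1 e
  have m : G.ρ (G.xr z) = G.ρ (FK.pv (FT G) (G.xl z)) + k * G.nn 0 := m
  have y2 : G.ρ (FK.pv (FT G) (G.xl z)) = G.ρ (G.xl z) - 1 := y2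
  have := h.n4 0
  have := (h.rows.nx_mem f0).2.1
  rcases f2 with r | r <;> rw [r] at m <;> rcases le_or_gt k 0 with l | l <;> nlinarith

/-- A good frame is coloured by the modes I and II unless the period is two, the frame wraps and
`la` lies under the edge that ends at the left foot, straddled. -/
theorem good (hI : S_I) (hII : S_II) [Fintype J] (h : TQ G v z la lb lc ld)
    (s : FP2.Sl G.Γ G.η) (hφ : FK.PH (FT G) G.Pr φ) (g : GD G v z la)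
    (k : (∃ b, G.η b = 2) → Wrap G z la → (G.nx (φ la)).1 = (G.xl z).1 →
      (φ la).1 ≠ (G.xr z).1 → ExT G (φ la) s(la, G.nx la) → ∃ c, Col1 G.Γ ∅ c) :
    ∃ c, Col1 G.Γ ∅ c := by
  obtain ⟨c, t, hf⟩ := g
  obtain ⟨y, y0, y1, y2, y3⟩ := y_ex h
  have lt := c.lt
  by_cases a : Arr G φ la y
  · exact hI J G φ v z la lb lc ld h s hφ ⟨c.kid, c.rung, y, y0, y1,
      (c.phi h hφ y0 (by omega) (by omega)).1, c.free_yb h t y0 y1, a⟩
  simp only [Arr, not_or, not_forall, not_not] at a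
  obtain ⟨b, a1, a2⟩ := a
  have n : (φ la).1 ≠ (G.xr z).1 := fun e => y3 (a1.symm.trans e)
  by_cases w : (φ (G.xr z)).1 = la.1
  · exact k b (c.wrap h hφ w) (y1 ▸ (h.rows.nx_orb (hφ.la h.st.lay h.ha.1.1) (h.rows.la y0)).2 a1)
      n a2
  · exact hII J G φ v z la lb lc ld h s hφ ⟨c.kid, c.free_ab h t, w, hf, Or.inr (Or.inl n)⟩

theorem g0 (hI : S_I) (hII : S_II) : S_G0 := fun _ _ _ _ _ _ _ _ _ _ h s hφ g =>
  good hI hII h s hφ g.1 fun _ w => absurd w g.2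

theorem g1 (hI : S_I) (hII : S_II) (hE : S_E) : S_G1 := fun J _ G φ v z la lb lc ld h s hφ g =>
  good hI hII h s hφ g.1 fun b w e n _ => hE J G φ v z la lb lc ld h s hφ ⟨g.1.1.kid, b, w, e, _,
    g.1.1.a0 h, (g.1.1.phi h hφ (g.1.1.a0 h) le_rfl g.1.1.lt).1, fun m => n (m.symm.trans w),
    g.1.1.free_xa h g.1.2.1 g.2⟩

end Pool.Agent.P.MP_08fd93_co.FP
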