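import Pool.Agent.P.MP_08fd93_co.FU.Z1

/-! Three strict edges in the cell under a top edge. -/

set_option autoImplicit false

namespace Pool.Agent.P.MP_08fd93_co.FP

open OV FU OV.PkStp4aP

variable {W : Type} {H : SimpleGraph W} {d : DD W}

/-- three edges, the last one separated from the first two -/
theorem admP_three {e1 e2 e3 : Sym2 W} (h1 : e1 ∈ PE H d.X ∪ PE H d.Y)
    (h2 : e2 ∈ PE H d.X ∪ PE H d.Y) (h3 : e3 ∈ PE H d.X ∪ PE H d.Y)
    (s1 : SS H d e1 e3) (s2 : SS H d e2 e3)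
    (h : SS H d e1 e2 ∨ Pr H d e1 e2 ∨ Pr H d.swap e1 e2) : AdmP H d {e1, e2, e3} := by
  refine ⟨?_, ?_, ?_⟩
  · rintro _ (rfl | rfl | rfl)
    exacts [h1, h2, h3]
  · rintro _ (rfl | rfl | rfl) _ (rfl | rfl | rfl) hne
    · exact absurd rfl hne
    · exact h
    · exact Or.inl s1
    · exact h.imp Or.symm (Or.imp Pr.symm Pr.symm)
    · exact absurd rfl hne
    · exact Or.inl s2
    · exact Or.inl s1.symm
    · exact Or.inl s2.symm
    · exact absurd rfl hne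
  · rintro _ (rfl | rfl | rfl) _ (rfl | rfl | rfl) _ (rfl | rfl | rfl) n1 n2 n3 <;>
      first
        | exact absurd rfl n1
        | exact absurd rfl n2
        | exact absurd rfl n3
        | exact Or.inl s1
        | exact Or.inl s2
        | exact Or.inl s1.symm
        | exact Or.inl s2.symm
        | exact Or.inr (Or.inl s1)
        | exact Or.inr (Or.inl s2)

/-- Over a single vertex one more strict edge is free. -/
theorem fan1 (hP : Pl H Set.univ) (T : TA H) (D : Disc H d) (hX : d.a = d.b)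
    {S : Set (Sym2 W)} (A : Adm H d S) {e : Sym2 W} (he : e ∈ PE H d.Y) :
    ∃ o, Out H d (insert e S) o := by
  have eX : d.X = {d.b} := Pth.eq_single (ρ := d.ρ) (by have := D.px; rwa [hX] at this)
  have onY : ∀ f ∈ insert e S, f ∈ PE H d.Y := by
    rintro f (rfl | k)
    · exact he
    · refine (A.1 k).resolve_left ?_
      rintro ⟨x, kx, y, ky, a, -⟩
      rw [eX] at kx ky
      exact a.ne (kx.trans ky.symm)
  refine tp hP T D ⟨fun f k => Or.inr (onY f k), fun f k f' k' _ => ?_, ?_⟩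
  · refine Or.inr (Or.inr (Or.inl ⟨d.a', D.py.ha, d.b', D.py.hb, d.a, D.px.ha, D.ra.symm,
      hX ▸ D.rb.symm, fun x hx => ?_⟩))
    have m : x ∈ d.Y := hx.elim (PE.ends (onY f k)) (PE.ends (onY f' k'))
    exact ⟨m, D.py.lo x m, D.py.hi x m⟩
  · rintro e1 (rfl | k1) e2 (rfl | k2) e3 (rfl | k3) n1 n2 n3
    · exact absurd rfl n1
    · exact absurd rfl n1
    · exact absurd rfl n2
    · exact Or.inr (Or.inr (A.2 _ k2 _ k3 n3))
    · exact absurd rfl n3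
    · exact Or.inr (Or.inl (A.2 _ k1 _ k3 n2))
    · exact Or.inl (A.2 _ k1 _ k2 n1)
    · exact Or.inl (A.2 _ k1 _ k2 n1)

/-- An end of a strict edge on the second path stays on it. -/
theorem keepY {S : Set (Sym2 W)} {o : OD W} (h : Shp H d S o) {e : Sym2 W} (he : e ∈ S) {x : W}
    (hx : x ∈ e) (hy : x ∈ d.Y) : x ∈ o.Y := (h.yy hy).resolve_right (h.st e he x hx)

/-- The first path is an edge whose apex `t` sees one vertex `q` of the second path; the edge is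
strict together with an edge at `q` and a further edge after `q`. -/
theorem apex1 (hP : Pl H Set.univ) (T : TA H) (D : Disc H d) (ab : H.Adj d.a d.b) {t q : W}
    (ht : t ∈ d.I) (ta : H.Adj t d.a) (tb : H.Adj t d.b) (hq : q ∈ d.Y) (tq : H.Adj t q)
    (only : ∀ y ∈ d.Y, H.Adj t y → y = q) {e e' : Sym2 W}
    (he : e ∈ PE H {y | y ∈ d.Y ∧ d.ρ q ≤ d.ρ y}) (he' : e' ∈ PE H {y | y ∈ d.Y ∧ d.ρ q ≤ d.ρ y})
    (qe : q ∈ e) : ∃ o, Out H d {e, e', s(d.a, d.b)} o := by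
  obtain ⟨s, rfl, g1, g2, rfl, P, R, dm, -⟩ := step_z hP D D.px.ha D.px.hb
    (D.px.lt_hi D.px.ha ab.ne) ab ht ta tb
  have ev : s.z = s.v := (P.ty _ P.pt.ha q hq tq).1
  have el : s.ql = q := only _ P.hl (ev ▸ P.vl)
  have ej : s.qj = q := only _ P.hj (ev ▸ P.vj)
  subst ej
  have m : e ∈ PE H s.dM.Y := PE.mono Set.subset_union_right he
  have m' : e' ∈ PE H s.dM.Y := PE.mono Set.subset_union_right he'
  obtain ⟨o, O⟩ := ty hP T dm.swap (show s.p' = s.d.b from g2) m m'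
  have O1 : Out H s.dM {e, e'} o.swap := O.swap
  obtain ⟨u, A⟩ := pa_of_eq P R dm O1.shp
    (keepY O1.shp (Or.inl rfl) qe (Or.inr ⟨P.hj, le_rfl⟩)) el
  refine step_std hP T A O1 (fun k => absurd el k) ?_
  rintro f (rfl | rfl | rfl)
  · exact Or.inr ⟨Or.inl rfl, Or.inr (PE.mono (fun _ k => k.1) he)⟩
  · exact Or.inr ⟨Or.inr rfl, Or.inr (PE.mono (fun _ k => k.1) he')⟩
  · exact Or.inl (by rw [g1, g2])

/-- The second path is an edge, `z` is the second vertex of the first path, `q q'` is a later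
edge of the first path. -/
structure Tl (H : SimpleGraph W) (d : DD W) (z q q' : W) : Prop where
  disc : Disc H d
  top : H.Adj d.a' d.b'
  hz : z ∈ d.X
  az : H.Adj d.a z
  hq : q ∈ d.X
  hq' : q' ∈ d.X
  qq : H.Adj q q'
  l1 : d.ρ z ≤ d.ρ q
  l2 : d.ρ q < d.ρ q'

variable {z q q' : W}

theorem Tl.l0 (h : Tl H d z q q') : d.ρ d.a < d.ρ z := h.disc.px.lo_lt h.hz h.az.ne'

theorem Tl.lt (h : Tl H d z q q') : d.ρ d.a' < d.ρ d.b' :=
  h.disc.py.lt_hi h.disc.py.ha h.top.ne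

theorem Tl.m1 (h : Tl H d z q q') : s(d.a, z) ∈ PE H d.X := mem_PE.2 ⟨h.disc.px.ha, h.hz, h.az⟩

theorem Tl.m2 (h : Tl H d z q q') : s(q, q') ∈ PE H d.X := mem_PE.2 ⟨h.hq, h.hq', h.qq⟩

theorem Tl.m3 (h : Tl H d z q q') : s(d.a', d.b') ∈ PE H d.Y :=
  mem_PE.2 ⟨h.disc.py.ha, h.disc.py.hb, h.top⟩

theorem Tl.cY (h : Tl H d z q q') {y : W} (k : y ∈ d.Y) : y = d.a' ∨ y = d.b' := by
  rwa [h.disc.py.eq_pair h.top] at k

theorem Tl.cX (h : Tl H d z q q') {x : W} (k : x ∈ d.X) : x = d.a ∨ d.ρ z ≤ d.ρ x :=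
  ((h.disc.px.adj _ h.disc.px.ha _ h.hz h.l0).1 h.az x k).imp_left fun l =>
    h.disc.px.inj _ k _ h.disc.px.ha (le_antisymm l (h.disc.px.lo x k))

/-- a rung at the last top vertex -/
theorem sepB (D : Disc H d) {x : W} (hx : x ∈ d.X) (a : H.Adj x d.b') {e e' : Sym2 W}
    (he : ∀ y ∈ e, y ∈ d.X ∧ d.ρ x ≤ d.ρ y) (he' : e' ∈ PE H d.Y) : SS H d e e' :=
  Or.inr ⟨x, hx, _, D.py.hb, a, fun y k => Or.inr ⟨PE.ends he' k, D.py.hi y (PE.ends he' k)⟩,
    fun y k => Or.inl (he y k)⟩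

/-- a rung at the first top vertex -/
theorem sepA (D : Disc H d) {x : W} (hx : x ∈ d.X) (a : H.Adj x d.a') {e e' : Sym2 W}
    (he : ∀ y ∈ e, y ∈ d.X ∧ d.ρ y ≤ d.ρ x) (he' : e' ∈ PE H d.Y) : SS H d e e' :=
  Or.inl ⟨x, hx, _, D.py.ha, a, fun y k => Or.inl (he y k),
    fun y k => Or.inr ⟨PE.ends he' k, D.py.lo y (PE.ends he' k)⟩⟩

theorem both {p : W → Prop} {a b : W} (h1 : p a) (h2 : p b) : ∀ y ∈ s(a, b), p y := by
  intro y k
  rcases Sym2.mem_iff.1 k with rfl | rfl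
  exacts [h1, h2]

/-- Case V: the first bottom vertex sees both top vertices. -/
theorem Tl.caseV (hP : Pl H Set.univ) (T : TA H) (h : Tl H d z q q') (v : H.Adj d.a d.b') :
    ∃ o, Out H d {s(d.a, z), s(q, q'), s(d.a', d.b')} o := by
  have D := h.disc
  refine tp hP T D (admP_three (Or.inl h.m1) (Or.inl h.m2) (Or.inr h.m3)
    (sepB D D.px.ha v (fun y k => ⟨PE.ends h.m1 k, D.px.lo y (PE.ends h.m1 k)⟩) h.m3)
    (sepB D D.px.ha v (fun y k => ⟨PE.ends h.m2 k, D.px.lo y (PE.ends h.m2 k)⟩) h.m3)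
    (Or.inr (Or.inl (Or.inl ⟨d.a, D.px.ha, d.b, D.px.hb, d.b', D.py.hb, v, D.rb,
      fun x hx => ?_⟩))))
  have k : x ∈ d.X := hx.elim (PE.ends h.m1) (PE.ends h.m2)
  exact ⟨k, D.px.lo x k, D.px.hi x k⟩

/-- Case TP: the second bottom vertex sees both top vertices. -/
theorem Tl.caseTP (hP : Pl H Set.univ) (T : TA H) (h : Tl H d z q q') (za : H.Adj z d.a')
    (zb : H.Adj z d.b') : ∃ o, Out H d {s(d.a, z), s(q, q'), s(d.a', d.b')} o := by
  have D := h.disc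
  have l0 := h.l0
  have l1 := h.l1
  have l2 := h.l2
  have k1 : ∀ y ∈ s(d.a, z), y ∈ d.X ∧ d.ρ y ≤ d.ρ z := both ⟨D.px.ha, l0.le⟩ ⟨h.hz, le_rfl⟩
  have k2 : ∀ y ∈ s(q, q'), y ∈ d.X ∧ d.ρ z ≤ d.ρ y := both ⟨h.hq, l1⟩ ⟨h.hq', by omega⟩
  exact tp hP T D (admP_three (Or.inl h.m1) (Or.inl h.m2) (Or.inr h.m3)
    (sepA D h.hz za k1 h.m3) (sepB D h.hz zb k2 h.m3)
    (Or.inl (Or.inl ⟨z, h.hz, _, D.py.ha, za, fun y k => Or.inl (k1 y k),
      fun y k => Or.inl (k2 y k)⟩)))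

/-- Case W: the first top vertex sees a bottom vertex after both bottom edges. -/
theorem Tl.caseW (hP : Pl H Set.univ) (T : TA H) (h : Tl H d z q q') {x : W} (hx : x ∈ d.X)
    (l : d.ρ q' ≤ d.ρ x) (a : H.Adj x d.a') :
    ∃ o, Out H d {s(d.a, z), s(q, q'), s(d.a', d.b')} o := by
  have D := h.disc
  have l0 := h.l0
  have l1 := h.l1
  have l2 := h.l2
  have k1 : ∀ y ∈ s(d.a, z), y ∈ d.X ∧ d.ρ y ≤ d.ρ x :=
    both ⟨D.px.ha, by omega⟩ ⟨h.hz, by omega⟩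
  have k2 : ∀ y ∈ s(q, q'), y ∈ d.X ∧ d.ρ y ≤ d.ρ x := both ⟨h.hq, by omega⟩ ⟨h.hq', l⟩
  refine tp hP T D (admP_three (Or.inl h.m1) (Or.inl h.m2) (Or.inr h.m3)
    (sepA D hx a k1 h.m3) (sepA D hx a k2 h.m3)
    (Or.inr (Or.inl (Or.inl ⟨d.a, D.px.ha, x, hx, d.a', D.py.ha, D.ra, a, fun y hy => ?_⟩))))
  have k := hy.elim (k1 y) (k2 y)
  exact ⟨k.1, D.px.lo y k.1, k.2⟩

/-- Case TN: a common neighbour of the top vertices sees only the first bottom vertex. -/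
theorem Tl.caseTN (hP : Pl H Set.univ) (T : TA H) (h : Tl H d z q q') {t : W} (ht : t ∈ d.I)
    (ta : H.Adj t d.a') (tb : H.Adj t d.b') (tv : H.Adj t d.a)
    (only : ∀ x ∈ d.X, H.Adj t x → x = d.a) :
    ∃ o, Out H d {s(d.a, z), s(q, q'), s(d.a', d.b')} o := by
  have D := h.disc
  have sub : d.X ⊆ {y | y ∈ d.X ∧ d.ρ d.a ≤ d.ρ y} := fun y k => ⟨k, D.px.lo y k⟩
  obtain ⟨o, O⟩ := apex1 hP T D.swap h.top (by rwa [DD.swap_I]) ta tb D.px.ha tv only
    (PE.mono sub h.m1) (PE.mono sub h.m2) (Sym2.mem_mk_left _ _)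
  exact ⟨o.swap, O.swap⟩

/-- Case N: an inner neighbour `u` of the first bottom vertex sees a bottom vertex after both
bottom edges, and no common neighbour of the three first vertices does. -/
theorem Tl.caseN (hP : Pl H Set.univ) (T : TA H) (h : Tl H d z q q') {u p : W} (hu : u ∈ d.I)
    (ua : H.Adj u d.a) (hp : p ∈ d.X) (lp : d.ρ q' ≤ d.ρ p) (up : H.Adj u p)
    (ht : ∀ t ∈ d.I, H.Adj t d.a → H.Adj t d.a' → H.Adj t d.b' → ∀ x ∈ d.X, d.ρ q' ≤ d.ρ x →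
      ¬ H.Adj t x) : ∃ o, Out H d {s(d.a, z), s(q, q'), s(d.a', d.b')} o := by
  have D := h.disc
  have l0 := h.l0
  have l1 := h.l1
  have l2 := h.l2
  have l3 := h.lt
  by_cases v : H.Adj d.a d.b'
  · exact h.caseV hP T v
  obtain ⟨w, w1, w2, hw⟩ := PkStp1P.apex0 hP D D.px.ha h.hz l0 h.az
  have hw : w ∈ d.I := by
    refine hw.resolve_right fun k => ?_
    rcases h.cY k with rfl | rfl
    · exact (D.theta hP h.hz D.py.ha (T := ∅) (E := {u}) (Set.empty_subset _) isConn_empty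
        (Or.inl w2.symm) (by rintro _ rfl; exact hu) (isConn_single u) (Set.disjoint_empty _)
        (x := d.a) (y := p) (Or.inl ⟨D.px.ha, l0⟩) (Or.inl ⟨hp, by omega⟩)).2
        ⟨⟨u, rfl, ua.symm⟩, ⟨u, rfl, up.symm⟩⟩
    · exact v w1.symm
  obtain ⟨s, rfl, g1, rfl, -, P, R, dm, -⟩ := step_z hP D D.px.ha h.hz l0 h.az hw w1 w2
  have nI : ∀ x ∈ s.d.X, x ∉ s.d.I := fun x k m => (DD.mem_I.1 m).2.1 k
  have uT : u ∈ s.τ := by
    by_contra n
    have r : u ∈ s.Rg (s.lab u) := ⟨hu, n, rfl⟩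
    generalize s.lab u = k at r
    fin_cases k
    · rcases R.n0 ⟨u, r, up.symm⟩ with m | (m | m) | m
      · exact nI p hp m.1
      · have := m.2
        rw [g1] at this
        omega
      · exact D.xy hp m.1
      · exact tauX P hp m
    · rcases R.n1 ⟨u, r, ua.symm⟩ with m | (m | m) | m
      · exact nI _ D.px.ha m.1
      · have := m.2
        omega
      · exact D.xy D.px.ha m.1
      · exact tauX P D.px.ha m
    · rcases R.n2 ⟨u, r, up.symm⟩ with m | m | m | m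
      · exact nI p hp m.1
      · rw [m, g1] at lp
        omega
      · rw [m] at lp
        omega
      · exact tauX P hp (m ▸ P.pt.ha)
    · rcases R.n3 ⟨u, r, ua.symm⟩ with m | m | m | m | m
      · exact nI _ D.px.ha m.1
      · exact D.xy D.px.ha m.1
      · exact tauX P D.px.ha (m ▸ P.pt.hb)
      · exact D.xy D.px.ha (m ▸ P.hl)
      · exact D.xy D.px.ha (m ▸ P.hj)
  have rX : ∀ x ∈ s.d.X, s.dM.ρ x = s.d.ρ x := fun x k => rM_not (tauX P k)
  have rY : ∀ x ∈ s.d.Y, s.dM.ρ x = s.d.ρ x := fun x k => rM_not (tauY P k)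
  have ru := rM_tau (s := s) uT
  have uv := P.pt.hi u uT
  have pM : p ∈ s.dM.X := ⟨hp, by omega⟩
  have m2 : s(q, q') ∈ PE H s.dM.X := mem_PE.2 ⟨⟨h.hq, l1⟩, ⟨h.hq', by omega⟩, h.qq⟩
  have e0 : s(s.d.a, s.p') = s(s.p, s.p') := by rw [g1]
  have lj := lj P
  rcases h.cY P.hj with ej | ej
  · -- the path lands on the first top vertex only
    have el : s.ql = s.qj := by
      rcases h.cY P.hl with e | e
      · exact e.trans ej.symm
      · rw [e, ej] at lj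
        omega
    have m3 : s(s.d.a', s.d.b') ∈ PE H s.dM.Y :=
      mem_PE.2 ⟨Or.inr ⟨D.py.ha, by rw [ej]⟩, Or.inr ⟨D.py.hb, by rw [ej]; omega⟩, h.top⟩
    obtain ⟨o1, O1⟩ := T s.dM {s(q, q'), s(s.d.a', s.d.b')} dm (adm_pair (Or.inl m2) (Or.inr m3)
      (Or.inl ⟨p, pM, u, Or.inl uT, up.symm,
        both (Or.inl ⟨(mem_PE.1 m2).1, by rw [rX _ h.hq, rX _ hp]; omega⟩)
          (Or.inl ⟨(mem_PE.1 m2).2.1, by rw [rX _ h.hq', rX _ hp]; omega⟩),
        both (Or.inr ⟨(mem_PE.1 m3).1, by rw [rY _ D.py.ha, ru, ej]; omega⟩)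
          (Or.inr ⟨(mem_PE.1 m3).2.1, by rw [rY _ D.py.hb, ru, ej]; omega⟩)⟩))
    obtain ⟨u0, A⟩ := pa_of_eq P R dm O1.shp
      (keepY O1.shp (Or.inr rfl) (ej ▸ Sym2.mem_mk_left _ _) (Or.inr ⟨P.hj, le_rfl⟩)) el
    refine step_std hP T A O1 (fun k => absurd el k) ?_
    rintro f (rfl | rfl | rfl)
    · exact Or.inl e0
    · exact Or.inr ⟨Or.inl rfl, Or.inl h.m2⟩
    · exact Or.inr ⟨Or.inr rfl, Or.inr h.m3⟩
  rcases h.cY P.hl with el | el
  · -- the path lands on both top vertices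
    have tI := P.ti P.pt.hb
    have ta : H.Adj s.v s.d.a' := el ▸ P.vl
    have tb : H.Adj s.v s.d.b' := ej ▸ P.vj
    have tv : H.Adj s.v s.d.a := by
      obtain ⟨x, hx, lx, ax⟩ := P.tn _ P.pt.hb
      rw [g1] at lx
      exact D.px.inj _ hx _ D.px.ha (le_antisymm lx (D.px.lo x hx)) ▸ ax
    refine h.caseTN hP T tI ta tb tv fun x hx ax => (h.cX hx).resolve_right fun lx => ?_
    have lx' : s.d.ρ x < s.d.ρ q' := not_le.1 fun k => ht _ tI tv ta tb x hx k ax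
    have ne : u ≠ s.v := fun e => ht _ tI tv ta tb p hp lp (e ▸ up)
    have lu := P.pt.lt_hi uT ne
    exact (dm.theta hP pM (q := u) (Or.inl uT) (T := ∅) (E := ∅) (Set.empty_subset _)
      isConn_empty (Or.inl up.symm) (Set.empty_subset _) isConn_empty (Set.disjoint_empty _)
      (x := x) (y := s.v) (Or.inl ⟨⟨hx, lx⟩, by rw [rX _ hx, rX _ hp]; omega⟩)
      (Or.inr ⟨Or.inl P.pt.hb, by rw [ru, rM_tau P.pt.hb]; omega⟩)).1 ax.symm
  · -- the path lands on the last top vertex only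
    have eq : s.ql = s.qj := el.trans ej.symm
    obtain ⟨o1, O1⟩ := T s.dM {s(q, q')} dm (Adm.single (Or.inl m2))
    obtain ⟨u0, A⟩ := pa_of_eq P R dm O1.shp (ej ▸ O1.shp.py.hb) eq
    obtain ⟨o2, O2⟩ := fan1 hP T (A.dl hP).1 (show s.d.a = s.p from g1.symm) A.admL
      (e := s(s.d.a', s.d.b'))
      (mem_PE.2 ⟨Or.inl ⟨D.py.ha, by rw [el]; omega⟩, Or.inl ⟨D.py.hb, by rw [el]⟩, h.top⟩)
    refine ⟨_, step_gen hP T A O1 O2 (fun k => absurd eq k) (Set.subset_insert _ _) ?_⟩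
    rintro f (rfl | rfl | rfl)
    · exact Or.inl e0
    · exact Or.inr ⟨Or.inl rfl, Or.inl h.m2⟩
    · exact Or.inr ⟨Or.inr (Or.inl rfl), Or.inr h.m3⟩

end Pool.Agent.P.MP_08fd93_co.FP
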