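import Pool.Agent.P.MP_08fd93_co.FP.L1
import Pool.Agent.P.MP_08fd93_co.FB.C9

/-! The tail cell in both orientations, as one-sided outputs. -/

set_option autoImplicit false

namespace Pool.Agent.P.MP_08fd93_co.FP

open OV FU FB

variable {W : Type} {H : SimpleGraph W} {d : DD W} {z q q' : W}

/-- The cases in which the three edges are strict; the bottom path starts with `d.a`, `z`, and
`q'` is the far end of the second bottom edge. -/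
def RH (H : SimpleGraph W) (d : DD W) (z q' : W) : Prop :=
  H.Adj d.a d.b' ∨ (H.Adj z d.a' ∧ H.Adj z d.b') ∨ (∃ x ∈ d.X, d.ρ q' ≤ d.ρ x ∧ H.Adj x d.a') ∨
    (∃ t ∈ d.I, H.Adj t d.a' ∧ H.Adj t d.b' ∧ H.Adj t d.a ∧ ∀ x ∈ d.X, H.Adj t x → x = d.a) ∨
    ((∃ u ∈ d.I, H.Adj u d.a ∧ ∃ p ∈ d.X, d.ρ q' ≤ d.ρ p ∧ H.Adj u p) ∧
      ∀ t ∈ d.I, H.Adj t d.a → H.Adj t d.a' → H.Adj t d.b' → ∀ x ∈ d.X, d.ρ q' ≤ d.ρ x →
        ¬ H.Adj t x)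

/-- The tail comes first. -/
theorem right (hP : Pl H Set.univ) (T : TA H) (h : Tl H d z q q') (k : RH H d z q') :
    ∃ o, Out H d {s(d.a, z), s(q, q'), s(d.a', d.b')} o := by
  rcases k with k | k | ⟨x, hx, l, a⟩ | ⟨t, ht, a1, a2, a3, k⟩ | ⟨⟨u, hu, a, p, hp, l, a'⟩, k⟩
  exacts [h.caseV hP T k, h.caseTP hP T k.1 k.2, h.caseW hP T hx l a,
    h.caseTN hP T ht a1 a2 a3 k, h.caseN hP T hu a hp l a' k]

theorem rightX (hP : Pl H Set.univ) (T : TA H) (h : Tl H d z q q') (k : RH H d z q') :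
    ∃ X' P, OutX H d {s(d.a, z), s(q, q')} X' P fun _ _ => True := by
  obtain ⟨o, O⟩ := right hP T h k
  refine ⟨_, _, (out_top2 h.disc O h.top ?_ ?_).imp' fun _ _ _ _ => Or.inl (Or.inr (Or.inr rfl))⟩
  · rintro _ (rfl | rfl)
    exacts [Or.inl rfl, Or.inr (Or.inl rfl)]
  · rintro _ (rfl | rfl)
    exacts [h.m1, h.m2]

/-- The second path is an edge, the first path ends with `z`, `d.b`, and `q q'` is an earlier edge
of the first path. -/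
structure Tr (H : SimpleGraph W) (d : DD W) (z q q' : W) : Prop where
  disc : Disc H d
  top : H.Adj d.a' d.b'
  hz : z ∈ d.X
  zb : H.Adj z d.b
  hq : q ∈ d.X
  hq' : q' ∈ d.X
  qq : H.Adj q q'
  l1 : d.ρ q < d.ρ q'
  l2 : d.ρ q' ≤ d.ρ z

/-- The cases V, TP, W, TN, N for a tail at the end. -/
def LH (H : SimpleGraph W) (d : DD W) (z q : W) : Prop :=
  H.Adj d.b d.a' ∨ (H.Adj z d.a' ∧ H.Adj z d.b') ∨ (∃ x ∈ d.X, d.ρ x ≤ d.ρ q ∧ H.Adj x d.b') ∨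
    (∃ t ∈ d.I, H.Adj t d.a' ∧ H.Adj t d.b' ∧ H.Adj t d.b ∧ ∀ x ∈ d.X, H.Adj t x → x = d.b) ∨
    ((∃ u ∈ d.I, H.Adj u d.b ∧ ∃ p ∈ d.X, d.ρ p ≤ d.ρ q ∧ H.Adj u p) ∧
      ∀ t ∈ d.I, H.Adj t d.b → H.Adj t d.a' → H.Adj t d.b' → ∀ x ∈ d.X, d.ρ x ≤ d.ρ q →
        ¬ H.Adj t x)

theorem Tr.rv (h : Tr H d z q q') : Tl H (rvD d) z q' q := by
  have l1 := h.l1
  have l2 := h.l2
  refine ⟨disc_rv h.disc, h.top.symm, h.hz, h.zb.symm, h.hq', h.hq, h.qq.symm, ?_, ?_⟩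
  · change 0 - _ ≤ 0 - _
    omega
  · change 0 - _ < 0 - _
    omega

theorem LH.rv (k : LH H d z q) : RH H (rvD d) z q := by
  have e : ∀ x, (rvD d).ρ q ≤ (rvD d).ρ x ↔ d.ρ x ≤ d.ρ q := fun x => by
    change 0 - _ ≤ 0 - _ ↔ _
    omega
  rcases k with k | k | ⟨x, hx, l, a⟩ | ⟨t, ht, a1, a2, a3, k⟩ | ⟨⟨u, hu, a, p, hp, l, a'⟩, k⟩
  · exact Or.inl k
  · exact Or.inr (Or.inl k.symm)
  · exact Or.inr (Or.inr (Or.inl ⟨x, hx, (e x).2 l, a⟩))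
  · exact Or.inr (Or.inr (Or.inr (Or.inl ⟨t, ht, a2, a1, a3, k⟩)))
  · exact Or.inr (Or.inr (Or.inr (Or.inr ⟨⟨u, hu, a, p, hp, (e p).2 l, a'⟩,
      fun t ht b1 b2 b3 x hx lx => k t ht b1 b3 b2 x hx ((e x).1 lx)⟩)))

/-- Lemma LEFT: three strict edges. -/
theorem left (hP : Pl H Set.univ) (T : TA H) (h : Tr H d z q q') (k : LH H d z q) :
    ∃ o, Out H d {s(q, q'), s(z, d.b), s(d.a', d.b')} o := by
  obtain ⟨o, O⟩ := right hP T h.rv k.rv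
  refine ⟨_, (out_rv O).mono ?_⟩
  rintro _ (rfl | rfl | rfl)
  exacts [Or.inr (Or.inl Sym2.eq_swap), Or.inl Sym2.eq_swap, Or.inr (Or.inr Sym2.eq_swap)]

/-- Lemma LEFT as a one-sided output: no condition on the top edge. -/
theorem leftX (hP : Pl H Set.univ) (T : TA H) (h : Tr H d z q q') (k : LH H d z q) :
    ∃ X' P, OutX H d {s(q, q'), s(z, d.b)} X' P fun _ _ => True := by
  obtain ⟨X', P, O⟩ := rightX hP T h.rv k.rv
  refine ⟨X', P, O.rv'.mono ?_⟩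
  rintro _ (rfl | rfl)
  exacts [Or.inr Sym2.eq_swap, Or.inl Sym2.eq_swap]

end Pool.Agent.P.MP_08fd93_co.FP
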