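import Pool.Agent.P.MP_08fd93_co.FP.L2

/-! An inner vertex sees a whole path of the disc. -/

set_option autoImplicit false

namespace Pool.Agent.P.MP_08fd93_co.FP

open OV FU FB OV.PkStp4aP

variable {W : Type} {H : SimpleGraph W} {d : DD W}

/-- The first vertex of the second path sees the whole first path: all edges of the first path
and two edges of the second path are strict. -/
theorem hubM (hP : Pl H Set.univ) (T : TA H) (D : Disc H d) (all : ∀ x ∈ d.X, H.Adj d.a' x)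
    {e e' : Sym2 W} (he : e ∈ PE H d.Y) (he' : e' ∈ PE H d.Y) :
    ∃ o, Out H d (PE H d.X ∪ {e, e'}) o := by
  have onY : ∀ f ∈ ({e, e'} : Set (Sym2 W)), f ∈ PE H d.Y := by
    rintro _ (rfl | rfl)
    exacts [he, he']
  have xy : ∀ f ∈ PE H d.X, ∀ g ∈ PE H d.Y, SS H d f g := fun f k g k' =>
    sepA D D.px.hb (all _ D.px.hb).symm
      (fun y m => ⟨PE.ends k m, D.px.hi y (PE.ends k m)⟩) k'
  have xx : ∀ f ∈ PE H d.X, ∀ g ∈ PE H d.X, f ≠ g → SS H d f g := by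
    have key : ∀ p ∈ d.X, ∀ p' ∈ d.X, ∀ r ∈ d.X, ∀ r' ∈ d.X, H.Adj p p' → d.ρ p < d.ρ p' →
        d.ρ r < d.ρ r' → d.ρ p < d.ρ r → Sep H d s(p, p') s(r, r') := by
      intro p hp p' hp' r hr r' hr' a l l' k
      have := D.px.nb hp hp' a hr
      exact ⟨p', hp', d.a', D.py.ha, (all _ hp').symm,
        both (Or.inl ⟨hp, l.le⟩) (Or.inl ⟨hp', le_rfl⟩),
        both (Or.inl ⟨hr, by omega⟩) (Or.inl ⟨hr', by omega⟩)⟩
    intro f k g k' n
    obtain ⟨p, hp, p', hp', a, l, rfl⟩ := pe_ord D.px k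
    obtain ⟨r, hr, r', hr', a', l', rfl⟩ := pe_ord D.px k'
    rcases lt_trichotomy (d.ρ p) (d.ρ r) with m | m | m
    · exact Or.inl (key p hp p' hp' r hr r' hr' a l l' m)
    · obtain rfl : p = r := D.px.inj _ hp _ hr m
      obtain rfl : p' = r' := D.px.up_eq hp hp' hr' a a' l l'
      exact absurd rfl n
    · exact Or.inr (key r hr r' hr' p hp p' hp' a' l' l m)
  have one : ∀ f ∈ PE H d.X, ∀ g ∈ PE H d.X ∪ {e, e'}, f ≠ g → SS H d f g := fun f k g k' n =>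
    k'.elim (fun m => xx f k g m n) fun m => xy f k g (onY g m)
  refine tp hP T D ⟨fun f k => k.imp_right (onY f), fun f k g k' n => ?_,
    fun e1 k1 e2 k2 e3 k3 n1 n2 n3 => ?_⟩
  · rcases k with k | k
    · exact Or.inl (one f k g k' n)
    rcases k' with k' | k'
    · exact Or.inl (one g k' f (Or.inr k) n.symm).symm
    refine Or.inr (Or.inr (Or.inl ⟨d.a', D.py.ha, d.b', D.py.hb, d.b, D.px.hb,
      all _ D.px.hb, D.rb.symm, fun x hx => ?_⟩))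
    have m : x ∈ d.Y := hx.elim (PE.ends (onY f k)) (PE.ends (onY g k'))
    exact ⟨m, D.py.lo x m, D.py.hi x m⟩
  · rcases k1 with m1 | m1
    · exact Or.inl (one _ m1 _ k2 n1)
    rcases k2 with m2 | m2
    · exact Or.inl (one _ m2 _ (Or.inr m1) n1.symm).symm
    rcases k3 with m3 | m3
    · exact Or.inr (Or.inl (one _ m3 _ (Or.inr m1) n2.symm).symm)
    rcases m1 with rfl | rfl <;> rcases m2 with rfl | rfl <;> rcases m3 with rfl | rfl <;>
      first | exact absurd rfl n1 | exact absurd rfl n2 | exact absurd rfl n3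

/-- The main step at the first edge of a path in the link of the apex. -/
theorem hub_half (hP : Pl H Set.univ) (T : TA H) {s : SD W} (P : Stp H s) (R : Reg H s)
    (dm : Disc H s.dM) (hp : s.p = s.d.a) (all : ∀ x ∈ s.d.X, H.Adj s.z x)
    {A B : Set (Sym2 W)} (hA : A ⊆ PE H s.YL) (sA : A.Subsingleton) (hB : B ⊆ PE H s.YM)
    (sB : B.Subsingleton) : ∃ o, Out H s.d (PE H s.d.X ∪ (A ∪ B)) o := by
  have D := P.disc
  have h1 : s(s.v, s.qj) ∈ PE H s.dM.Y :=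
    mem_PE.2 ⟨Or.inl P.pt.hb, Or.inr ⟨P.hj, le_rfl⟩, P.vj⟩
  obtain ⟨e, he, eB⟩ : ∃ e ∈ PE H s.dM.Y, B ⊆ {e} := by
    rcases sB.eq_empty_or_singleton with rfl | ⟨e, rfl⟩
    · exact ⟨_, h1, Set.empty_subset _⟩
    · exact ⟨e, PE.mono Set.subset_union_right (hB rfl), subset_rfl⟩
  obtain ⟨o1, O1⟩ := hubM hP T dm (fun x k => all x k.1) h1 he
  have Q := pa_of_strict P R dm O1.shp (Or.inr (Or.inl rfl))
  obtain ⟨S2, o2, O2, s1, s2⟩ : ∃ S2 o2, Out H (s.dL o1) S2 o2 ∧ s.SL H o1 ⊆ S2 ∧ A ⊆ S2 := by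
    rcases sA.eq_empty_or_singleton with rfl | ⟨f, rfl⟩
    · obtain ⟨o2, O2⟩ := T _ _ (Q.dl hP).1 Q.admL
      exact ⟨_, o2, O2, subset_rfl, Set.empty_subset _⟩
    · obtain ⟨o2, O2⟩ := fan1 hP T (Q.dl hP).1 (show s.d.a = s.p from hp.symm) Q.admL
        (e := f) (PE.mono Set.subset_union_left (hA rfl))
      exact ⟨_, o2, O2, Set.subset_insert _ _, by rintro _ rfl; exact Or.inl rfl⟩
  refine ⟨_, step_gen hP T Q O1 O2 (fun _ => Or.inr (Or.inl rfl)) s1 ?_⟩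
  rintro f (k | k | k)
  · obtain ⟨x, hx, x', hx', a, l, rfl⟩ := pe_ord D.px k
    rcases (D.px.adj _ P.hp _ P.hp' P.lt).1 P.pp x hx with m | m
    · have := D.px.lo x hx
      obtain rfl : x = s.p := D.px.inj _ hx _ P.hp (by rw [hp] at m ⊢; omega)
      exact Or.inl (by rw [D.px.up_eq hx hx' P.hp' a P.pp l P.lt])
    · exact Or.inr ⟨Or.inl (Or.inl (mem_PE.2 ⟨⟨hx, m⟩, ⟨hx', by omega⟩, a⟩)), Or.inl k⟩
  · exact Or.inr ⟨Or.inr (s2 k), Or.inr (PE.mono (fun _ m => m.1) (hA k))⟩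
  · exact Or.inr ⟨Or.inl (Or.inr (Or.inr (eB k))), Or.inr (PE.mono (fun _ m => m.1) (hB k))⟩

/-- An inner vertex `v` sees the whole first path. There is an inner neighbour `t` of the first
vertex with extreme neighbours `ql`, `qj` on the second path such that all edges of the first path,
an edge before `ql` and an edge after `qj` are strict. -/
theorem hub_two (hP : Pl H Set.univ) (T : TA H) (D : Disc H d) (ne : d.a ≠ d.b) {v : W}
    (hv : v ∈ d.I) (all : ∀ x ∈ d.X, H.Adj v x) :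
    ∃ t ∈ d.I, ∃ ql ∈ d.Y, ∃ qj ∈ d.Y, H.Adj t d.a ∧ H.Adj t ql ∧ H.Adj t qj ∧
      (∀ y ∈ d.Y, H.Adj t y → d.ρ ql ≤ d.ρ y ∧ d.ρ y ≤ d.ρ qj) ∧
      (∀ t' ∈ d.I, H.Adj t' d.b → ∀ y ∈ d.Y, H.Adj t' y → d.ρ y < d.ρ qj → t' = t) ∧
      ∀ A B : Set (Sym2 W), A ⊆ PE H {y | y ∈ d.Y ∧ d.ρ y ≤ d.ρ ql} → A.Subsingleton →
        B ⊆ PE H {y | y ∈ d.Y ∧ d.ρ qj ≤ d.ρ y} → B.Subsingleton →
        ∃ o, Out H d (PE H d.X ∪ (A ∪ B)) o := by
  obtain ⟨p', hp', l, a, -⟩ := D.px.succ D.px.ha ne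
  obtain ⟨s, rfl, g1, rfl, rfl, P, R, dm, -⟩ := step_z hP D D.px.ha hp' l a hv
    (all _ D.px.ha) (all _ hp')
  have lt := D.px.lt_hi D.px.ha ne
  have iX : ∀ x ∈ s.d.X, x ∉ s.d.I := fun x hx k => k (Or.inr (Or.inl hx))
  have iY : ∀ x ∈ s.d.Y, x ∉ s.d.I := fun x hx k => k (Or.inr (Or.inr hx))
  refine ⟨s.v, P.ti P.pt.hb, s.ql, P.hl, s.qj, P.hj, ?_, P.vl, P.vj,
    fun y hy k => (P.ty _ P.pt.hb y hy k).2, fun t vI vb q hq tq lq => ?_,
    fun A B hA sA hB sB => hub_half hP T P R dm g1 all hA sA hB sB⟩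
  · obtain ⟨x, hx, lx, ax⟩ := P.tn _ P.pt.hb
    rw [g1] at lx
    exact D.px.inj _ hx _ D.px.ha (le_antisymm lx (D.px.lo x hx)) ▸ ax
  refine (P.ty t ?_ q hq tq).1
  by_contra ht
  have key : ∀ k : Fin 4, k = 0 ∨ k = 1 ∨ k = 2 ∨ k = 3 := by decide
  rcases key (s.lab t) with k | k | k | k
  · rcases R.n0 ⟨_, ⟨vI, ht, k⟩, vb.symm⟩ with r | (r | r) | r
    · exact iX _ D.px.hb r.1
    · have := r.2
      rw [g1] at this
      omega
    · exact D.xy D.px.hb r.1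
    · exact iX _ D.px.hb (P.ti r)
  · rcases R.n1 ⟨_, ⟨vI, ht, k⟩, tq.symm⟩ with r | (r | r) | r
    · exact iY _ hq r.1
    · exact D.xy r.1 hq
    · have := r.2
      omega
    · exact iY _ hq (P.ti r)
  · rcases R.n2 ⟨_, ⟨vI, ht, k⟩, tq.symm⟩ with r | r | r | r
    · exact iY _ hq r.1
    · exact D.xy P.hp (r ▸ hq)
    · exact D.xy P.hp' (r ▸ hq)
    · exact iY _ hq (r ▸ P.ti P.pt.ha)
  · rcases R.n3 ⟨_, ⟨vI, ht, k⟩, vb.symm⟩ with r | r | r | r | r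
    · exact iX _ D.px.hb r.1
    · exact D.xy D.px.hb r.1
    · exact iX _ D.px.hb (r ▸ P.ti P.pt.hb)
    · exact D.xy D.px.hb (r ▸ P.hl)
    · exact D.xy D.px.hb (r ▸ P.hj)

/-- An inner vertex sees the whole first path: all its edges are strict. -/
theorem hub0 (hP : Pl H Set.univ) (T : TA H) (D : Disc H d) {v : W} (hv : v ∈ d.I)
    (all : ∀ x ∈ d.X, H.Adj v x) : ∃ o, Out H d (PE H d.X) o := by
  by_cases ne : d.a = d.b
  · have eX : d.X = {d.b} := Pth.eq_single (ρ := d.ρ) (by have := D.px; rwa [ne] at this)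
    obtain ⟨o, O⟩ := T d ∅ D Adm.empty
    refine ⟨o, O.mono ?_⟩
    rintro _ ⟨x, kx, y, ky, a, -⟩
    rw [eX] at kx ky
    exact absurd (kx.trans ky.symm) a.ne
  obtain ⟨t, -, ql, -, qj, -, -, -, -, -, -, k⟩ := hub_two hP T D ne hv all
  obtain ⟨o, O⟩ := k ∅ ∅ (Set.empty_subset _) Set.subsingleton_empty (Set.empty_subset _)
    Set.subsingleton_empty
  exact ⟨o, O.mono Set.subset_union_left⟩

/-- An inner vertex sees the whole first path: all its edges are strict together with an edge `e`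
of the second path, unless an inner common neighbour of the ends of the first path sees the second
path on both sides of `e`. -/
theorem hub1 (hP : Pl H Set.univ) (T : TA H) (D : Disc H d) (ne : d.a ≠ d.b) {v : W}
    (hv : v ∈ d.I) (all : ∀ x ∈ d.X, H.Adj v x) {e : Sym2 W} (he : e ∈ PE H d.Y)
    (hz : ∀ z ∈ d.I, H.Adj z d.a → H.Adj z d.b → ∀ q ∈ d.Y, ∀ q' ∈ d.Y, H.Adj z q → H.Adj z q' →
      ¬ ∀ x ∈ e, d.ρ q ≤ d.ρ x ∧ d.ρ x ≤ d.ρ q') : ∃ o, Out H d (insert e (PE H d.X)) o := by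
  obtain ⟨y, hy, y', hy', ay, ly, rfl⟩ := pe_ord D.py he
  have sub : insert s(y, y') (PE H d.X) ⊆ PE H d.X ∪ (∅ ∪ {s(y, y')}) := by
    rintro _ (rfl | k)
    exacts [Or.inr (Or.inr rfl), Or.inl k]
  obtain ⟨t, ht, ql, -, qj, hj, ta, -, tj, -, u, k⟩ := hub_two hP T D ne hv all
  by_cases c1 : d.ρ qj ≤ d.ρ y
  · obtain ⟨o, O⟩ := k ∅ {s(y, y')} (Set.empty_subset _) Set.subsingleton_empty
      (by rintro _ rfl; exact mem_PE.2 ⟨⟨hy, c1⟩, ⟨hy', by omega⟩, ay⟩) Set.subsingleton_singleton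
    exact ⟨o, O.mono sub⟩
  obtain ⟨t', ht', ql', -, qj', hj', tb, -, tj', -, -, k'⟩ :=
    hub_two hP T (disc_rv D) (Ne.symm ne) hv all
  by_cases c2 : d.ρ y' ≤ d.ρ qj'
  · obtain ⟨o, O⟩ := k' ∅ {s(y, y')} (Set.empty_subset _) Set.subsingleton_empty
      (by
        rintro _ rfl
        exact mem_PE.2 ⟨⟨hy, by change 0 - _ ≤ 0 - _; omega⟩,
          ⟨hy', by change 0 - _ ≤ 0 - _; omega⟩, ay⟩) Set.subsingleton_singleton
    exact ⟨_, (out_rv O).mono sub⟩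
  have n1 := D.py.nb hy hy' ay hj'
  have n2 := D.py.nb hy hy' ay hj
  obtain rfl : t' = t := u t' ht' tb qj' hj' tj' (by omega)
  exact absurd (both (by omega) (by omega)) (hz t' ht ta tb qj' hj' qj hj tj' tj)

/-- an output in which all edges of the second path are strict -/
theorem allY {S S0 : Set (Sym2 W)} {o : OD W} (D : Disc H d) (O : Out H d S o)
    (hY : PE H d.Y ⊆ S) (s : S0 ⊆ S) (s' : S0 ⊆ PE H d.X) :
    OutX H d S0 o.X (PX d o) fun _ _ => True := by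
  refine out_keep D O (fun y k => ?_) s s' fun c A _ => (tok_empty c A).mono fun f m => m.2 (hY m.1)
  by_cases n : y = d.b'
  · exact Or.inr (Or.inl n)
  obtain ⟨y', k', -, a, -⟩ := D.py.succ k n
  exact Or.inr (Or.inr ⟨s(y, y'), hY (mem_PE.2 ⟨k, k', a⟩), Sym2.mem_mk_left _ _⟩)

/-- `hub0` for the second path, as a one-sided output. -/
theorem hub0X (hP : Pl H Set.univ) (T : TA H) (D : Disc H d) {v : W} (hv : v ∈ d.I)
    (all : ∀ y ∈ d.Y, H.Adj v y) : ∃ X' P, OutX H d ∅ X' P fun _ _ => True := by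
  obtain ⟨o, O⟩ := hub0 hP T D.swap (by rwa [DD.swap_I]) all
  have O' : Out H d (PE H d.Y) o.swap := O.swap
  exact ⟨_, _, allY D O' subset_rfl (Set.empty_subset _) (Set.empty_subset _)⟩

/-- `hub1` for the second path, as a one-sided output. -/
theorem hub1X (hP : Pl H Set.univ) (T : TA H) (D : Disc H d) (ne : d.a' ≠ d.b') {v : W}
    (hv : v ∈ d.I) (all : ∀ y ∈ d.Y, H.Adj v y) {e : Sym2 W} (he : e ∈ PE H d.X)
    (hz : ∀ z ∈ d.I, H.Adj z d.a' → H.Adj z d.b' → ∀ q ∈ d.X, ∀ q' ∈ d.X, H.Adj z q →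
      H.Adj z q' → ¬ ∀ x ∈ e, d.ρ q ≤ d.ρ x ∧ d.ρ x ≤ d.ρ q') :
    ∃ X' P, OutX H d {e} X' P fun _ _ => True := by
  obtain ⟨o, O⟩ := hub1 hP T D.swap ne (by rwa [DD.swap_I]) all he (by rwa [DD.swap_I])
  have O' : Out H d (insert e (PE H d.Y)) o.swap := O.swap
  exact ⟨_, _, allY D O' (Set.subset_insert _ _) (by rintro _ rfl; exact Or.inl rfl)
    (by rintro _ rfl; exact he)⟩

/-- `hub_two` for the second path, as a one-sided output. -/
theorem hub2X (hP : Pl H Set.univ) (T : TA H) (D : Disc H d) (ne : d.a' ≠ d.b') {v : W}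
    (hv : v ∈ d.I) (all : ∀ y ∈ d.Y, H.Adj v y) :
    ∃ t ∈ d.I, ∃ ql ∈ d.X, ∃ qj ∈ d.X, H.Adj t d.a' ∧ H.Adj t ql ∧ H.Adj t qj ∧
      (∀ x ∈ d.X, H.Adj t x → d.ρ ql ≤ d.ρ x ∧ d.ρ x ≤ d.ρ qj) ∧
      (∀ t' ∈ d.I, H.Adj t' d.b' → ∀ x ∈ d.X, H.Adj t' x → d.ρ x < d.ρ qj → t' = t) ∧
      ∀ A B : Set (Sym2 W), A ⊆ PE H {x | x ∈ d.X ∧ d.ρ x ≤ d.ρ ql} → A.Subsingleton →
        B ⊆ PE H {x | x ∈ d.X ∧ d.ρ qj ≤ d.ρ x} → B.Subsingleton →
        ∃ X' P, OutX H d (A ∪ B) X' P fun _ _ => True := by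
  obtain ⟨t, ht, ql, hl, qj, hj, a1, a2, a3, ex, u, k⟩ :=
    hub_two hP T D.swap ne (by rwa [DD.swap_I]) all
  rw [DD.swap_I] at ht u
  refine ⟨t, ht, ql, hl, qj, hj, a1, a2, a3, ex, u, fun A B hA sA hB sB => ?_⟩
  obtain ⟨o, O⟩ := k A B hA sA hB sB
  have O' : Out H d (PE H d.Y ∪ (A ∪ B)) o.swap := O.swap
  exact ⟨_, _, allY D O' Set.subset_union_left Set.subset_union_right
    (Set.union_subset (hA.trans (PE.mono fun _ m => m.1)) (hB.trans (PE.mono fun _ m => m.1)))⟩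

end Pool.Agent.P.MP_08fd93_co.FP
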