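import Pool.Agent.P.MP_08fd93_co.FP.L3

/-! An inner vertex sees the ends of a path and separates its strict edges. -/

set_option autoImplicit false

namespace Pool.Agent.P.MP_08fd93_co.FP

open OV FU FB OV.PkStp4aP

variable {W : Type} {H : SimpleGraph W} {d : DD W}

/-- The edges of `S` lie on `X`, and a neighbour of `v` on `X` lies between any two of them. -/
structure VS (H : SimpleGraph W) (X : Set W) (ρ : W → ℤ) (v : W) (S : Set (Sym2 W)) : Prop where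
  sub : S ⊆ PE H X
  sep : ∀ e ∈ S, ∀ e' ∈ S, e ≠ e' → ∃ x ∈ X, H.Adj v x ∧
    (((∀ y ∈ e, ρ y ≤ ρ x) ∧ ∀ y ∈ e', ρ x ≤ ρ y) ∨ ((∀ y ∈ e', ρ y ≤ ρ x) ∧ ∀ y ∈ e, ρ x ≤ ρ y))

theorem VS.rv {X : Set W} {ρ : W → ℤ} {v : W} {S : Set (Sym2 W)} (h : VS H X ρ v S) :
    VS H X (fun x => 0 - ρ x) v S := by
  refine ⟨h.sub, fun e k e' k' n => ?_⟩
  obtain ⟨x, hx, a, m | m⟩ := h.sep e k e' k' n
  · exact ⟨x, hx, a, Or.inr ⟨fun y r => by have := m.2 y r; omega,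
      fun y r => by have := m.1 y r; omega⟩⟩
  · exact ⟨x, hx, a, Or.inl ⟨fun y r => by have := m.2 y r; omega,
      fun y r => by have := m.1 y r; omega⟩⟩

/-- The first vertex of the second path sees the last vertex of the first path and separates the
edges of `S`; two edges of the second path are strict too. -/
theorem hubMS (hP : Pl H Set.univ) (T : TA H) (D : Disc H d) (hb : H.Adj d.a' d.b)
    {S : Set (Sym2 W)} (hS : VS H d.X d.ρ d.a' S) {e e' : Sym2 W} (he : e ∈ PE H d.Y)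
    (he' : e' ∈ PE H d.Y) : ∃ o, Out H d (S ∪ {e, e'}) o := by
  have onY : ∀ f ∈ ({e, e'} : Set (Sym2 W)), f ∈ PE H d.Y := by
    rintro _ (rfl | rfl)
    exacts [he, he']
  have xy : ∀ f ∈ PE H d.X, ∀ g ∈ PE H d.Y, SS H d f g := fun f k g k' =>
    sepA D D.px.hb hb.symm (fun y m => ⟨PE.ends k m, D.px.hi y (PE.ends k m)⟩) k'
  have xx : ∀ f ∈ S, ∀ g ∈ S, f ≠ g → SS H d f g := by
    intro f k g k' n
    obtain ⟨x, hx, a, m | m⟩ := hS.sep f k g k' n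
    · exact Or.inl ⟨x, hx, d.a', D.py.ha, a.symm,
        fun y r => Or.inl ⟨PE.ends (hS.sub k) r, m.1 y r⟩,
        fun y r => Or.inl ⟨PE.ends (hS.sub k') r, m.2 y r⟩⟩
    · exact Or.inr ⟨x, hx, d.a', D.py.ha, a.symm,
        fun y r => Or.inl ⟨PE.ends (hS.sub k') r, m.1 y r⟩,
        fun y r => Or.inl ⟨PE.ends (hS.sub k) r, m.2 y r⟩⟩
  have one : ∀ f ∈ S, ∀ g ∈ S ∪ {e, e'}, f ≠ g → SS H d f g := fun f k g k' n =>
    k'.elim (fun m => xx f k g m n) fun m => xy f (hS.sub k) g (onY g m)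
  refine tp hP T D ⟨fun f k => k.imp (fun m => hS.sub m) (onY f), fun f k g k' n => ?_,
    fun e1 k1 e2 k2 e3 k3 n1 n2 n3 => ?_⟩
  · rcases k with k | k
    · exact Or.inl (one f k g k' n)
    rcases k' with k' | k'
    · exact Or.inl (one g k' f (Or.inr k) n.symm).symm
    refine Or.inr (Or.inr (Or.inl ⟨d.a', D.py.ha, d.b', D.py.hb, d.b, D.px.hb,
      hb, D.rb.symm, fun x hx => ?_⟩))
    have m : x ∈ d.Y := hx.elim (PE.ends (onY f k)) (PE.ends (onY g k'))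
    exact ⟨m, D.py.lo x m, D.py.hi x m⟩
  · rcases k1 with m1 | m1
    · exact Or.inl (one _ m1 _ k2 n1)
    rcases k2 with m2 | m2
    · exact Or.inl (one _ m2 _ (Or.inr m1) n1.symm).symm
    rcases k3 with m3 | m3
    · exact Or.inr (Or.inl (one _ m3 _ (Or.inr m1) n2.symm).symm)
    rcases m1 with rfl | rfl <;> rcases m2 with rfl | rfl <;> rcases m3 with rfl | rfl <;>
      first | exact absurd rfl n1 | exact absurd rfl n2 | exact absurd rfl n3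

/-- The main step at the first edge. -/
theorem hubS_half (hP : Pl H Set.univ) (T : TA H) {s : SD W} (P : Stp H s) (R : Reg H s)
    (dm : Disc H s.dM) (hp : s.p = s.d.a) (hb : H.Adj s.z s.d.b) {S : Set (Sym2 W)}
    (hS : VS H s.d.X s.d.ρ s.z S) {A B : Set (Sym2 W)} (hA : A ⊆ PE H s.YL) (sA : A.Subsingleton)
    (hB : B ⊆ PE H s.YM) (sB : B.Subsingleton) :
    ∃ o, Out H s.d (insert s(s.p, s.p') S ∪ (A ∪ B)) o := by
  have D := P.disc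
  have rX : ∀ x ∈ s.d.X, s.dM.ρ x = s.d.ρ x := fun x k => rM_not (tauX P k)
  have h1 : s(s.v, s.qj) ∈ PE H s.dM.Y :=
    mem_PE.2 ⟨Or.inl P.pt.hb, Or.inr ⟨P.hj, le_rfl⟩, P.vj⟩
  obtain ⟨e, he, eB⟩ : ∃ e ∈ PE H s.dM.Y, B ⊆ {e} := by
    rcases sB.eq_empty_or_singleton with rfl | ⟨e, rfl⟩
    · exact ⟨_, h1, Set.empty_subset _⟩
    · exact ⟨e, PE.mono Set.subset_union_right (hB rfl), subset_rfl⟩
  have vs : VS H s.dM.X s.dM.ρ s.dM.a' (S ∩ PE H s.XM) := by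
    refine ⟨Set.inter_subset_right, fun f k g k' n => ?_⟩
    have key : ∀ f ∈ PE H s.XM, ∀ g ∈ PE H s.XM, ∀ x ∈ s.d.X, (∀ y ∈ f, s.d.ρ y ≤ s.d.ρ x) →
        (∀ y ∈ g, s.d.ρ x ≤ s.d.ρ y) → x ∈ s.XM ∧ (∀ y ∈ f, s.dM.ρ y ≤ s.dM.ρ x) ∧
          ∀ y ∈ g, s.dM.ρ x ≤ s.dM.ρ y := by
      intro f k g k' x hx m m'
      refine ⟨⟨hx, ?_⟩, fun y r => ?_, fun y r => ?_⟩
      · obtain ⟨u, hu, w, -, -, rfl⟩ := k
        exact hu.2.trans (m u (Sym2.mem_mk_left _ _))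
      · rw [rX y (PE.ends k r).1, rX x hx]
        exact m y r
      · rw [rX y (PE.ends k' r).1, rX x hx]
        exact m' y r
    obtain ⟨x, hx, a, m | m⟩ := hS.sep f k.1 g k'.1 n
    · obtain ⟨r1, r2⟩ := key f k.2 g k'.2 x hx m.1 m.2
      exact ⟨x, r1, a, Or.inl r2⟩
    · obtain ⟨r1, r2⟩ := key g k'.2 f k.2 x hx m.1 m.2
      exact ⟨x, r1, a, Or.inr r2⟩
  obtain ⟨o1, O1⟩ := hubMS hP T dm hb vs h1 he
  have Q := pa_of_strict P R dm O1.shp (Or.inr (Or.inl rfl))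
  obtain ⟨S2, o2, O2, s1, s2⟩ : ∃ S2 o2, Out H (s.dL o1) S2 o2 ∧ s.SL H o1 ⊆ S2 ∧ A ⊆ S2 := by
    rcases sA.eq_empty_or_singleton with rfl | ⟨f, rfl⟩
    · obtain ⟨o2, O2⟩ := T _ _ (Q.dl hP).1 Q.admL
      exact ⟨_, o2, O2, subset_rfl, Set.empty_subset _⟩
    · obtain ⟨o2, O2⟩ := fan1 hP T (Q.dl hP).1 (show s.d.a = s.p from hp.symm) Q.admL
        (e := f) (PE.mono Set.subset_union_left (hA rfl))
      exact ⟨_, o2, O2, Set.subset_insert _ _, by rintro _ rfl; exact Or.inl rfl⟩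
  refine ⟨_, step_gen hP T Q O1 O2 (fun _ => Or.inr (Or.inl rfl)) s1 ?_⟩
  rintro f ((rfl | k0) | k | k)
  · exact Or.inl rfl
  · have k := hS.sub k0
    obtain ⟨x, hx, x', hx', a, l, rfl⟩ := pe_ord D.px k
    rcases (D.px.adj _ P.hp _ P.hp' P.lt).1 P.pp x hx with m | m
    · have := D.px.lo x hx
      obtain rfl : x = s.p := D.px.inj _ hx _ P.hp (by rw [hp] at m ⊢; omega)
      exact Or.inl (by rw [D.px.up_eq hx hx' P.hp' a P.pp l P.lt])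
    · exact Or.inr ⟨Or.inl (Or.inl ⟨k0, mem_PE.2 ⟨⟨hx, m⟩, ⟨hx', by omega⟩, a⟩⟩), Or.inl k⟩
  · exact Or.inr ⟨Or.inr (s2 k), Or.inr (PE.mono (fun _ m => m.1) (hA k))⟩
  · exact Or.inr ⟨Or.inl (Or.inr (Or.inr (eB k))), Or.inr (PE.mono (fun _ m => m.1) (hB k))⟩

/-- An inner vertex `v` sees the first edge `d.a y` and the last vertex of the first path and
separates the edges of `S`. -/
theorem hubS_two (hP : Pl H Set.univ) (T : TA H) (D : Disc H d) {v y : W} (hv : v ∈ d.I)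
    (hy : y ∈ d.X) (ay : H.Adj d.a y) (va : H.Adj v d.a) (vy : H.Adj v y) (vb : H.Adj v d.b) :
    ∃ t ∈ d.I, ∃ ql ∈ d.Y, ∃ qj ∈ d.Y, H.Adj t d.a ∧ H.Adj t ql ∧ H.Adj t qj ∧
      (∀ y ∈ d.Y, H.Adj t y → d.ρ ql ≤ d.ρ y ∧ d.ρ y ≤ d.ρ qj) ∧
      (∀ t' ∈ d.I, H.Adj t' d.b → ∀ y ∈ d.Y, H.Adj t' y → d.ρ y < d.ρ qj → t' = t) ∧
      ∀ S A B : Set (Sym2 W), VS H d.X d.ρ v S →
        A ⊆ PE H {y | y ∈ d.Y ∧ d.ρ y ≤ d.ρ ql} → A.Subsingleton →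
        B ⊆ PE H {y | y ∈ d.Y ∧ d.ρ qj ≤ d.ρ y} → B.Subsingleton →
        ∃ o, Out H d (insert s(d.a, y) S ∪ (A ∪ B)) o := by
  have l := D.px.lo_lt hy ay.ne'
  obtain ⟨s, rfl, g1, rfl, rfl, P, R, dm, -⟩ := step_z hP D D.px.ha hy l ay hv va vy
  have lt := D.px.hi _ hy
  have iX : ∀ x ∈ s.d.X, x ∉ s.d.I := fun x hx k => k (Or.inr (Or.inl hx))
  have iY : ∀ x ∈ s.d.Y, x ∉ s.d.I := fun x hx k => k (Or.inr (Or.inr hx))
  refine ⟨s.v, P.ti P.pt.hb, s.ql, P.hl, s.qj, P.hj, ?_, P.vl, P.vj,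
    fun y hy k => (P.ty _ P.pt.hb y hy k).2, fun t vI vb q hq tq lq => ?_,
    fun S A B hS hA sA hB sB => g1 ▸ hubS_half hP T P R dm g1 vb hS hA sA hB sB⟩
  · obtain ⟨x, hx, lx, ax⟩ := P.tn _ P.pt.hb
    rw [g1] at lx
    exact D.px.inj _ hx _ D.px.ha (le_antisymm lx (D.px.lo x hx)) ▸ ax
  refine (P.ty t ?_ q hq tq).1
  by_contra ht
  have key : ∀ k : Fin 4, k = 0 ∨ k = 1 ∨ k = 2 ∨ k = 3 := by decide
  rcases key (s.lab t) with k | k | k | k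
  · rcases R.n0 ⟨_, ⟨vI, ht, k⟩, vb.symm⟩ with r | (r | r) | r
    · exact iX _ D.px.hb r.1
    · have := r.2
      rw [g1] at this
      omega
    · exact D.xy D.px.hb r.1
    · exact iX _ D.px.hb (P.ti r)
  · rcases R.n1 ⟨_, ⟨vI, ht, k⟩, tq.symm⟩ with r | (r | r) | r
    · exact iY _ hq r.1
    · exact D.xy r.1 hq
    · have := r.2
      omega
    · exact iY _ hq (P.ti r)
  · rcases R.n2 ⟨_, ⟨vI, ht, k⟩, tq.symm⟩ with r | r | r | r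
    · exact iY _ hq r.1
    · exact D.xy P.hp (r ▸ hq)
    · exact D.xy P.hp' (r ▸ hq)
    · exact iY _ hq (r ▸ P.ti P.pt.ha)
  · rcases R.n3 ⟨_, ⟨vI, ht, k⟩, vb.symm⟩ with r | r | r | r | r
    · exact iX _ D.px.hb r.1
    · exact D.xy D.px.hb r.1
    · exact iX _ D.px.hb (r ▸ P.ti P.pt.hb)
    · exact D.xy D.px.hb (r ▸ P.hl)
    · exact D.xy D.px.hb (r ▸ P.hj)

/-- No edge of the second path is asked for. -/
theorem hubS0 (hP : Pl H Set.univ) (T : TA H) (D : Disc H d) {v y : W} (hv : v ∈ d.I)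
    (hy : y ∈ d.X) (ay : H.Adj d.a y) (va : H.Adj v d.a) (vy : H.Adj v y) (vb : H.Adj v d.b)
    {S : Set (Sym2 W)} (hS : VS H d.X d.ρ v S) : ∃ o, Out H d (insert s(d.a, y) S) o := by
  obtain ⟨t, -, ql, -, qj, -, -, -, -, -, -, k⟩ := hubS_two hP T D hv hy ay va vy vb
  obtain ⟨o, O⟩ := k S ∅ ∅ hS (Set.empty_subset _) Set.subsingleton_empty (Set.empty_subset _)
    Set.subsingleton_empty
  exact ⟨o, O.mono Set.subset_union_left⟩

/-- `v` sees the first and the last edge of the first path; an edge `e` of the second path is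
strict too unless an inner common neighbour of the ends sees both sides of `e`. -/
theorem hubS1 (hP : Pl H Set.univ) (T : TA H) (D : Disc H d) {v y y0 : W} (hv : v ∈ d.I)
    (hy : y ∈ d.X) (ay : H.Adj d.a y) (hy0 : y0 ∈ d.X) (yb : H.Adj d.b y0) (va : H.Adj v d.a)
    (vy : H.Adj v y) (vy0 : H.Adj v y0) (vb : H.Adj v d.b) {S : Set (Sym2 W)}
    (hS : VS H d.X d.ρ v S) {e : Sym2 W} (he : e ∈ PE H d.Y)
    (hz : ∀ z ∈ d.I, H.Adj z d.a → H.Adj z d.b → ∀ q ∈ d.Y, ∀ q' ∈ d.Y, H.Adj z q → H.Adj z q' →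
      ¬ ∀ x ∈ e, d.ρ q ≤ d.ρ x ∧ d.ρ x ≤ d.ρ q') : ∃ o, Out H d (insert e S) o := by
  obtain ⟨r, hr, r', hr', ar, lr, rfl⟩ := pe_ord D.py he
  have sub : ∀ f, insert s(r, r') S ⊆ insert f S ∪ (∅ ∪ {s(r, r')}) := by
    rintro f _ (rfl | k)
    exacts [Or.inr (Or.inr rfl), Or.inl (Or.inr k)]
  obtain ⟨t, ht, ql, -, qj, hj, ta, -, tj, -, u, k⟩ := hubS_two hP T D hv hy ay va vy vb
  by_cases c1 : d.ρ qj ≤ d.ρ r
  · obtain ⟨o, O⟩ := k S ∅ {s(r, r')} hS (Set.empty_subset _) Set.subsingleton_empty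
      (by rintro _ rfl; exact mem_PE.2 ⟨⟨hr, c1⟩, ⟨hr', by omega⟩, ar⟩) Set.subsingleton_singleton
    exact ⟨o, O.mono (sub _)⟩
  obtain ⟨t', ht', ql', -, qj', hj', tb, -, tj', -, -, k'⟩ :=
    hubS_two hP T (disc_rv D) hv hy0 yb vb vy0 va
  by_cases c2 : d.ρ r' ≤ d.ρ qj'
  · obtain ⟨o, O⟩ := k' S ∅ {s(r, r')} hS.rv (Set.empty_subset _) Set.subsingleton_empty
      (by
        rintro _ rfl
        exact mem_PE.2 ⟨⟨hr, by change 0 - _ ≤ 0 - _; omega⟩,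
          ⟨hr', by change 0 - _ ≤ 0 - _; omega⟩, ar⟩) Set.subsingleton_singleton
    exact ⟨_, (out_rv O).mono (sub _)⟩
  have n1 := D.py.nb hr hr' ar hj'
  have n2 := D.py.nb hr hr' ar hj
  obtain rfl : t' = t := u t' ht' tb qj' hj' tj' (by omega)
  exact absurd (both (by omega) (by omega)) (hz t' ht ta tb qj' hj' qj hj tj' tj)

/-- `hubS0` for the second path. -/
theorem hubS0Y (hP : Pl H Set.univ) (T : TA H) (D : Disc H d) {v y : W} (hv : v ∈ d.I)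
    (hy : y ∈ d.Y) (ay : H.Adj d.a' y) (va : H.Adj v d.a') (vy : H.Adj v y) (vb : H.Adj v d.b')
    {S : Set (Sym2 W)} (hS : VS H d.Y d.ρ v S) : ∃ o, Out H d (insert s(d.a', y) S) o := by
  obtain ⟨o, O⟩ := hubS0 hP T D.swap (by rwa [DD.swap_I]) hy ay va vy vb hS
  exact ⟨o.swap, O.swap⟩

/-- `hubS1` for the second path. -/
theorem hubS1Y (hP : Pl H Set.univ) (T : TA H) (D : Disc H d) {v y y0 : W} (hv : v ∈ d.I)
    (hy : y ∈ d.Y) (ay : H.Adj d.a' y) (hy0 : y0 ∈ d.Y) (yb : H.Adj d.b' y0) (va : H.Adj v d.a')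
    (vy : H.Adj v y) (vy0 : H.Adj v y0) (vb : H.Adj v d.b') {S : Set (Sym2 W)}
    (hS : VS H d.Y d.ρ v S) {e : Sym2 W} (he : e ∈ PE H d.X)
    (hz : ∀ z ∈ d.I, H.Adj z d.a' → H.Adj z d.b' → ∀ q ∈ d.X, ∀ q' ∈ d.X, H.Adj z q →
      H.Adj z q' → ¬ ∀ x ∈ e, d.ρ q ≤ d.ρ x ∧ d.ρ x ≤ d.ρ q') : ∃ o, Out H d (insert e S) o := by
  obtain ⟨o, O⟩ := hubS1 hP T D.swap (by rwa [DD.swap_I]) hy ay hy0 yb va vy vy0 vb hS he
    (by rwa [DD.swap_I])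
  exact ⟨o.swap, O.swap⟩

end Pool.Agent.P.MP_08fd93_co.FP
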