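import Pool.Agent.P.MP_08fd93_co.FP.L4
import Pool.Agent.P.MP_08fd93_co.FB.C11

/-! A common neighbour of the ends of the upper path gets the upper class. -/

set_option autoImplicit false

namespace Pool.Agent.P.MP_08fd93_co.FP

open OV FU FB

variable {W : Type} {H : SimpleGraph W} {d : DD W}

/-- another division of the boundary of a disc -/
theorem redisc (D : Disc H d) {d' : DD W} (hZ : d'.Z = d.Z) (hB : d'.X ∪ d'.Y = d.X ∪ d.Y)
    (px : Pth H d'.X d'.ρ d'.a d'.b) (py : Pth H d'.Y d'.ρ d'.a' d'.b')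
    (dxy : Disjoint d'.X d'.Y) (ra : H.Adj d'.a d'.a') (rb : H.Adj d'.b d'.b') :
    Disc H d' ∧ d'.I = d.I := by
  have eI : d'.I = d.I := by rw [DD.I, DD.I, hZ, hB]
  exact ⟨⟨px, py, dxy, ra, rb, hZ ▸ D.zc, by rw [hZ, hB]; exact D.dz, by rw [hZ, hB]; exact D.cl,
    by rw [hZ, hB]; exact D.tz, eI ▸ D.fin, eI ▸ D.nj⟩, eI⟩

/-- The inner vertices of the second path are ends of edges of `S`. -/
def Keep (d : DD W) (S : Set (Sym2 W)) : Prop :=
  ∀ y ∈ d.Y, y = d.a' ∨ y = d.b' ∨ ∃ e ∈ S, y ∈ e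

/-- extension to a disc over one vertex -/
theorem star_rec (D : Disc H d) {v : W} (hX : d.X = {v}) {S : Set (Sym2 W)} {o : OD W}
    (O : Out H d S o) (k : Keep d S) {c : W → Col} {A : Set W} (cv : (c v).1 = false)
    (cY : ∀ y ∈ d.Y, (c y).1 = true) (tok : Tok (PE H d.Y \ S) c A) : ∃ c', Rec H d.I A c c' := by
  obtain ⟨e1, e2, -, e4⟩ := O.shp.nohide D
    (fun x m => by
      have ha := D.px.ha
      rw [hX] at m ha
      rw [(m.trans ha.symm : x = d.a)]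
      exact O.shp.xz O.shp.px.ha)
    fun y m => by
      rcases k y m with rfl | rfl | ⟨e, he, r⟩
      exacts [O.shp.yz O.shp.py.ha, O.shp.yz O.shp.py.hb, O.shp.st e he y r]
  have l : LE H d S o ⊆ PE H d.Y \ S := by
    rintro f ⟨m | m, n⟩
    · obtain ⟨x, kx, y, ky, a, -⟩ := m
      rw [hX] at kx ky
      exact absurd (kx.1.trans ky.1.symm) a.ne
    · exact ⟨PE.mono Set.inter_subset_left m, n⟩
  obtain ⟨ω, p1, p2⟩ := tok
  obtain ⟨c', r⟩ := O.ext c ω (by rw [e1, hX]; rintro _ rfl; exact cv) (e2 ▸ cY) (p1.mono l)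
  exact ⟨c', e4 ▸ r.mono fun x _ m => p2 (Pay.mono l m)⟩

open Classical in
/-- The whole boundary `t`, `Y` has the upper class; an inner vertex `v` sees the ends of `Y` and
separates the edges of `S`. -/
theorem cyc_rec (hP : Pl H Set.univ) (T : TA H) (D : Disc H d) {t v : W} (ea : d.a = t)
    (eb : d.b = t) (ne : d.a' ≠ d.b') (n : ¬ H.Adj d.a' d.b') (hv : v ∈ d.I) (va : H.Adj v d.a')
    (vb : H.Adj v d.b') {S : Set (Sym2 W)} (hS : VS H d.Y d.ρ v S) (k : Keep d S) {c : W → Col}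
    {A : Set W} (ct : (c t).1 = true) (cY : ∀ y ∈ d.Y, (c y).1 = true)
    (tok : Tok (PE H d.Y \ S) c A) : ∃ c', Rec H d.I A c c' := by
  have eX : d.X = {t} := Pth.eq_single (ρ := d.ρ) (by have := D.px; rwa [ea, eb] at this)
  have tX : t ∈ d.X := ea ▸ D.px.ha
  have ta : H.Adj t d.a' := ea ▸ D.ra
  have tb : H.Adj t d.b' := eb ▸ D.rb
  have tY : ∀ y ∈ d.Y, y ≠ t := fun y m e => D.xy tX (e ▸ m)
  have vY : ∀ y ∈ d.Y, y ≠ v := fun y m e => Y_I m (e ▸ hv)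
  have tv : t ≠ v := fun e => X_I tX (e ▸ hv)
  have only : ∀ y ∈ d.Y, H.Adj t y → y = d.a' ∨ y = d.b' := by
    intro y m a
    by_contra h
    rw [not_or] at h
    exact (D.theta hP tX m (T := ∅) (E := {v}) (Set.empty_subset _) isConn_empty (Or.inl a)
      (by rintro _ rfl; exact hv) (isConn_single v) (Set.disjoint_empty _)
      (Or.inr ⟨D.py.ha, D.py.lo_lt m h.1⟩) (Or.inr ⟨D.py.hb, D.py.lt_hi m h.2⟩)).2
      ⟨⟨v, rfl, va.symm⟩, ⟨v, rfl, vb.symm⟩⟩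
  obtain ⟨y0, h0, l0, a0, m0⟩ := D.py.pred D.py.hb ne.symm
  let σ : W → ℤ := fun x => if x = t then d.ρ d.a' - 1 else d.ρ x
  have σt : σ t = d.ρ d.a' - 1 := if_pos rfl
  have σY : ∀ y ∈ d.Y, σ y = d.ρ y := fun y m => if_neg (tY y m)
  have mY : ∀ y, y ∈ d.Y \ {d.b'} ↔ y ∈ d.Y ∧ d.ρ d.a' ≤ d.ρ y ∧ d.ρ y ≤ d.ρ y0 := fun y =>
    ⟨fun m => ⟨m.1, D.py.lo y m.1, m0 y m.1 (D.py.lt_hi m.1 m.2)⟩,
      fun m => ⟨m.1, fun e => by have := m.2.2; rw [(e : y = d.b')] at this; omega⟩⟩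
  have p1 : Pth H ({t} ∪ d.Y \ {d.b'}) σ t y0 :=
    (Pth.single t σ).join
      ((D.py.sub D.py.ha h0 (D.py.lo _ h0) mY).congr fun y m => σY y m.1)
      (Or.inr ⟨by rw [σt, σY _ D.py.ha]; omega, ta⟩) (by
        rintro _ rfl y m a
        exact Or.inl ⟨rfl, (only y m.1 a).resolve_right m.2⟩)
  obtain ⟨E, eI⟩ := redisc D (d' := ⟨d.Z, {t} ∪ d.Y \ {d.b'}, {d.b'}, σ, t, y0, d.b', d.b'⟩) rfl
    (by
      rw [eX]
      exact (Set.union_assoc _ _ _).trans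
        (by rw [Set.sdiff_union_of_subset (Set.singleton_subset_iff.2 D.py.hb)]))
    p1 (Pth.single _ _)
    (Set.disjoint_right.2 (by
      rintro _ rfl (m | m)
      exacts [tY _ D.py.hb m, m.2 rfl])) tb a0
  have hb : Hub H ⟨d.Z, {t} ∪ d.Y \ {d.b'}, {d.b'}, σ, t, y0, d.b', d.b'⟩ v d.a' d.b' d.b' :=
    ⟨E, eI ▸ hv, Or.inr ⟨D.py.ha, ne⟩, va, rfl, rfl, vb, vb,
      by rintro _ rfl _; exact ⟨le_rfl, le_rfl⟩, fun _ => n⟩
  obtain ⟨dL, dR, K, C⟩ := hb.cut hP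
  have k0 := C.k0 rfl
  have yL : ∀ y, y ∈ dL.Y ↔ y = d.b' ∨ y = v := fun y => (C.l.eY y).trans
    (or_congr_left ⟨fun m => m.1, by rintro rfl; exact ⟨rfl, le_rfl⟩⟩)
  have yR : ∀ y, y ∈ dR.Y ↔ y = d.b' ∨ y = v := fun y => (C.r.eY y).trans
    (or_congr_left ⟨fun m => m.1, by rintro rfl; exact ⟨rfl, le_rfl⟩⟩)
  have xL : ∀ x, x ∈ dL.X ↔ x = t ∨ x = d.a' := fun x => (C.l.eX x).trans (by
    constructor
    · rintro ⟨m | m, l⟩
      · exact Or.inl m
      · change σ x ≤ σ d.a' at l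
        rw [σY _ m.1, σY _ D.py.ha] at l
        exact Or.inr (D.py.inj _ m.1 _ D.py.ha (le_antisymm l (D.py.lo x m.1)))
    · rintro (rfl | rfl)
      · exact ⟨Or.inl rfl, by change σ x ≤ σ d.a'; rw [σt, σY _ D.py.ha]; omega⟩
      · exact ⟨Or.inr ⟨D.py.ha, ne⟩, le_rfl⟩)
  have xR : ∀ x, x ∈ dR.X ↔ x ∈ d.Y \ {d.b'} := fun x => (C.r.eX x).trans (by
    constructor
    · rintro ⟨rfl | m, l⟩
      · change σ d.a' ≤ σ x at l
        rw [σt, σY _ D.py.ha] at l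
        omega
      · exact m
    · intro m
      exact ⟨Or.inr m, by change σ d.a' ≤ σ x; rw [σY _ m.1, σY _ D.py.ha]; exact D.py.lo x m.1⟩)
  obtain ⟨D1, e1⟩ := redisc C.r.disc (d' := ⟨dR.Z, {v}, d.Y, d.ρ, v, v, d.a', d.b'⟩) rfl
    (by
      ext x
      simp only [Set.mem_union, xR, yR, Set.mem_singleton_iff, Set.mem_sdiff]
      constructor
      · rintro (m | m)
        · exact Or.inr (Or.inr m)
        · by_cases r : x = d.b'
          exacts [Or.inr (Or.inl r), Or.inl ⟨m, r⟩]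
      · rintro (m | rfl | m)
        exacts [Or.inr m.1, Or.inr D.py.hb, Or.inl m])
    (Pth.single _ _) D.py (Set.disjoint_left.2 (by rintro _ rfl m; exact vY _ m rfl)) va vb
  let τ : W → ℤ := fun x => if x = d.a' then 0 else if x = t then 1 else 2
  have τ0 : τ d.a' = 0 := if_pos rfl
  have τ1 : τ t = 1 := by simp only [τ, if_neg ta.ne, if_true]
  have τ2 : τ d.b' = 2 := by simp only [τ, if_neg ne.symm, if_neg tb.ne']
  have p2 : Pth H ({d.a', t} ∪ {t, d.b'}) τ d.a' d.b' :=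
    (Pth.pair ta.symm (by omega)).join (Pth.pair tb (by omega)) (Or.inl rfl) (by
      rintro _ (rfl | rfl) _ (rfl | rfl) a
      · exact Or.inr ⟨rfl, Or.inr rfl⟩
      · exact absurd a n
      · exact Or.inr ⟨rfl, Or.inl rfl⟩
      · exact Or.inr ⟨rfl, Or.inl rfl⟩)
  obtain ⟨D2, e2⟩ := redisc C.l.disc
    (d' := ⟨dL.Z, {v}, {d.a', t} ∪ {t, d.b'}, τ, v, v, d.a', d.b'⟩) rfl
    (by
      ext x
      simp only [Set.mem_union, xL, yL, Set.mem_singleton_iff, Set.mem_insert_iff]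
      tauto)
    (Pth.single _ _) p2
    (Set.disjoint_left.2 (by
      rintro _ rfl ((m | m) | m | m)
      exacts [va.ne m, tv m.symm, tv m.symm, vb.ne m])) va vb
  obtain ⟨o1, O1⟩ := T _ S D1 ⟨fun f m => Or.inr (hS.sub m), fun f m g m' r => by
    obtain ⟨x, hx, a, s | s⟩ := hS.sep f m g m' r
    · exact Or.inl ⟨v, rfl, x, hx, a, fun y q => Or.inr ⟨PE.ends (hS.sub m) q, s.1 y q⟩,
        fun y q => Or.inr ⟨PE.ends (hS.sub m') q, s.2 y q⟩⟩
    · exact Or.inr ⟨v, rfl, x, hx, a, fun y q => Or.inr ⟨PE.ends (hS.sub m') q, s.1 y q⟩,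
        fun y q => Or.inr ⟨PE.ends (hS.sub m) q, s.2 y q⟩⟩⟩
  obtain ⟨o2, O2⟩ := fan1 hP T D2 rfl (S := {s(d.a', t)}) (e := s(t, d.b'))
    (Adm.single (Or.inr (mem_PE.2 ⟨Or.inl (Or.inl rfl), Or.inl (Or.inr rfl), ta.symm⟩)))
    (mem_PE.2 ⟨Or.inr (Or.inl rfl), Or.inr (Or.inr rfl), tb⟩)
  have sR : dR.I ⊆ d.I := eI ▸ C.sR
  have cov : ∀ x ∈ d.I, x = v ∨ x ∈ dR.I ∪ dL.I := fun x m => by
    rcases (C.cov x).1 (eI ▸ m) with r | r | r | r
    exacts [Or.inl r, Or.inr (Or.inr r), Or.inr (Or.inl r), absurd (k0 ▸ r) (Set.notMem_empty x)]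
  have cv : Function.update c v (false, false) v = (false, false) := Function.update_self _ _ _
  have cy : ∀ y ∈ d.Y, Function.update c v (false, false) y = c y := fun y m =>
    Function.update_of_ne (vY y m) _ _
  have c0t : Function.update c v (false, false) t = c t := Function.update_of_ne tv _ _
  obtain ⟨c1, r1⟩ := star_rec D1 rfl O1 k (c := Function.update c v (false, false)) (A := A)
    (by rw [cv]) (fun y m => by rw [cy y m]; exact cY y m) (by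
      obtain ⟨ω, q1, q2⟩ := tok
      have ends : ∀ e ∈ PE H d.Y \ S, ∀ x ∈ e, x ∈ d.Y := fun e m x r => PE.ends m.1 r
      exact ⟨ω, paid_congr ends cy (fun _ _ => rfl) q1,
        fun x m => q2 (pay_congr ends cy (fun _ _ => rfl) m)⟩)
  rw [e1] at r1
  obtain ⟨c2, r2⟩ := star_rec D2 rfl O2 (c := c1) (A := ∅)
    (by
      rintro _ ((rfl | rfl) | rfl | rfl)
      exacts [Or.inl rfl, Or.inr (Or.inr ⟨_, Or.inl rfl, Sym2.mem_mk_left _ _⟩),
        Or.inr (Or.inr ⟨_, Or.inl rfl, Sym2.mem_mk_left _ _⟩), Or.inr (Or.inl rfl)])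
    (by rw [r1.off v (Y_I C.uR), cv])
    (by
      have ht : (c1 t).1 = true := by rw [r1.off t fun m => X_I tX (sR m), c0t, ct]
      have hy : ∀ y ∈ d.Y, (c1 y).1 = true := fun y m => by
        rw [r1.off y fun r => Y_I m (sR r), cy y m, cY y m]
      rintro _ ((rfl | rfl) | rfl | rfl)
      exacts [hy _ D.py.ha, ht, ht, hy _ D.py.hb])
    ((tok_empty _ _).mono (by
      rintro _ ⟨⟨x, (rfl | rfl) | rfl | rfl, y, (rfl | rfl) | rfl | rfl, a, rfl⟩, m⟩ <;>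
        first
          | exact a.ne rfl
          | exact n a
          | exact n a.symm
          | exact m (Or.inl rfl)
          | exact m (Or.inr rfl)
          | exact m (Or.inl Sym2.eq_swap)
          | exact m (Or.inr Sym2.eq_swap)))
  rw [e2] at r2
  have r3 := r1.union r2 (Set.disjoint_right.2 C.lr)
    (by rintro ⟨x, hx, y, hy, a⟩; exact C.nLR hy hx a.symm) fun _ _ _ _ m => m
  have far : ∀ y, y ∉ dR.I ∪ dL.I → H.Adj v y →
      Function.update c v (false, false) y ≠ Function.update c v (false, false) v := by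
    intro y m a g
    rw [cv] at g
    rcases nb_I D hv a with s | s | s
    · rw [eX] at s
      rw [(s : y = t), c0t] at g
      rw [g] at ct
      exact absurd ct (by decide)
    · have := cY y s
      rw [← cy y s, g] at this
      exact absurd this (by decide)
    · exact (cov y s).elim a.ne' m
  have r4 := rec_add (K := {v}) (Al := A) (c := c)
    (fun x m => Function.update_of_ne m _ _) r3
    (by rintro _ rfl (m | m); exacts [Y_I C.uR m, Y_I C.uL m])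
    (by rintro _ rfl y m z _ a _ g _; exact absurd g (far y m a))
    (by rintro _ rfl _ y m a; exact far y m a)
    (by rintro x _ m _ rfl a g; exact absurd g.symm (far x m a.symm))
    (by rintro x _ _ _ rfl _ rfl _ _ _ _; rfl) fun x _ _ m => m.elim id False.elim
  have eq : {v} ∪ (dR.I ∪ dL.I) = d.I := Set.Subset.antisymm
    (by
      rintro x (rfl | m | m)
      exacts [hv, sR m, eI ▸ C.sL m]) cov
  exact ⟨c2, eq ▸ r4⟩

/-- Corner: `t` sees both ends of the upper path and the lower path on both sides of `e`. It gets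
the upper class; the ends have the same colour or one of them has a free token. -/
theorem corner (hP : Pl H Set.univ) (T : TA H) (D : Disc H d) (ne : d.a' ≠ d.b')
    (n : ¬ H.Adj d.a' d.b') {v t q q' : W} (hv : v ∈ d.I) (va : H.Adj v d.a') (vb : H.Adj v d.b')
    (ht : t ∈ d.I) (tv : t ≠ v) (ta : H.Adj t d.a') (tb : H.Adj t d.b') (hq : q ∈ d.X)
    (hq' : q' ∈ d.X) (tq : H.Adj t q) (tq' : H.Adj t q') {e : Sym2 W} (he : e ∈ PE H d.X)
    (le : ∀ x ∈ e, d.ρ q ≤ d.ρ x ∧ d.ρ x ≤ d.ρ q') {S : Set (Sym2 W)} (hS : VS H d.Y d.ρ v S)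
    (k : Keep d S) : ∃ X' P, OutX H d {e} X' P fun c A => ∃ B, B ⊆ A ∧ Tok (PE H d.Y \ S) c B ∧
      (c d.a' = c d.b' ∨ d.a' ∈ A \ B ∨ d.b' ∈ A \ B) := by
  have hb : Hub H d t q d.a' d.b' := ⟨D, ht, hq, tq, D.py.ha, D.py.hb, ta, tb,
    fun y m _ => ⟨D.py.lo y m, D.py.hi y m⟩, fun r => absurd r ne⟩
  obtain ⟨dL, dR, K, C⟩ := hb.cut hP
  have lt := D.py.lt_hi D.py.ha ne
  have vK : v ∈ K := by
    rcases (C.cov v).1 hv with r | r | r | r
    · exact absurd r.symm tv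
    · rcases C.nL r vb with s | s | s | s
      · exact absurd (C.sL s) (Y_I D.py.hb)
      · exact absurd s tb.ne'
      · exact absurd D.py.hb (D.xy s.1)
      · have := s.2
        omega
    · rcases C.nR r va with s | s | s | s
      · exact absurd (C.sR s) (Y_I D.py.ha)
      · exact absurd s ta.ne'
      · exact absurd D.py.ha (D.xy s.1)
      · have := s.2
        omega
    · exact r
  have ym : YM d d.a' d.b' = d.Y := Set.ext fun y =>
    ⟨fun m => m.1, fun m => ⟨m, D.py.lo y m, D.py.hi y m⟩⟩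
  obtain ⟨F, eF⟩ := C.fan hP
  rw [ym] at F eF
  have tL : H.Adj dL.a' dL.b' := by rw [C.l.ea', C.l.eb']; exact ta.symm
  have tR : H.Adj dR.a' dR.b' := by rw [C.r.ea', C.r.eb']; exact tb
  have mL : s(dL.a', dL.b') ∈ PE H dL.Y := mem_PE.2 ⟨C.l.disc.py.ha, C.l.disc.py.hb, tL⟩
  have mR : s(dR.a', dR.b') ∈ PE H dR.Y := mem_PE.2 ⟨C.r.disc.py.ha, C.r.disc.py.hb, tR⟩
  have l0 : d.ρ q ≤ d.ρ q' := by
    obtain ⟨x, -, y, -, -, rfl⟩ := he
    exact (le x (Sym2.mem_mk_left _ _)).1.trans (le x (Sym2.mem_mk_left _ _)).2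
  have eR : e ∈ PE H dR.X := by
    obtain ⟨x, hx, y, hy, a, rfl⟩ := he
    exact mem_PE.2 ⟨(C.r.eX x).2 ⟨hx, (le x (Sym2.mem_mk_left _ _)).1⟩,
      (C.r.eX y).2 ⟨hy, (le y (Sym2.mem_mk_right _ _)).1⟩, a⟩
  obtain ⟨o1, O1⟩ := T dL _ C.l.disc (Adm.single (Or.inr mL))
  obtain ⟨o2, O2⟩ := T dR {e, s(dR.a', dR.b')} C.r.disc (adm_pair (Or.inl eR) (Or.inr mR)
    (sepA C.r.disc ((C.r.eX q').2 ⟨hq', l0⟩) (C.r.ea' ▸ tq'.symm) (fun y m =>
      ⟨PE.ends eR m, by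
        rw [C.r.eρ y (C.nu' (PE.ends he m)), C.r.eρ q' (C.nu' hq')]
        exact (le y m).2⟩) mR))
  have OL := (out_top2 C.l.disc O1 tL (Set.empty_subset _) (Set.empty_subset _)).imp'
    (Ψ' := fun _ _ => True) fun _ _ _ _ => Or.inl rfl
  have OR := (out_top2 C.r.disc O2 tR (S0 := {e}) (by rintro _ rfl; exact Or.inl rfl)
    (by rintro _ rfl; exact eR)).imp' (Ψ' := fun _ _ => True) fun _ _ _ _ => Or.inl (Or.inr rfl)
  have only : ∀ y ∈ d.Y, H.Adj t y → y = d.a' ∨ y = d.b' := by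
    intro y m a
    by_contra h
    rw [not_or] at h
    exact (F.theta hP rfl m (T := ∅) (E := {v}) (Set.empty_subset _) isConn_empty (Or.inl a)
      (Set.singleton_subset_iff.2 (eF.ge vK)) (isConn_single v) (Set.disjoint_empty _)
      (Or.inr ⟨D.py.ha, D.py.lo_lt m h.1⟩) (Or.inr ⟨D.py.hb, D.py.lt_hi m h.2⟩)).2
      ⟨⟨v, rfl, va.symm⟩, ⟨v, rfl, vb.symm⟩⟩
  refine ⟨_, _, (C.top_rec OL OR ?_).mono Set.subset_union_right⟩
  rintro c A h1 ⟨B, hB, tok, h2⟩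
  obtain ⟨κ, k0, k1, k2⟩ : ∃ κ : Col, κ.1 = true ∧ (c d.a' = κ → d.a' ∈ A \ B ∧ c d.b' ≠ κ) ∧
      (c d.b' = κ → d.b' ∈ A \ B ∧ c d.a' ≠ κ) := by
    by_cases g : c d.a' = c d.b'
    · obtain ⟨κ, s1, s2⟩ := oth (c d.a')
      exact ⟨κ, s1.trans (h1 _ D.py.ha), fun r => absurd r s2, fun r => absurd (g.trans r) s2⟩
    rcases h2.resolve_left g with m | m
    · exact ⟨c d.a', h1 _ D.py.ha, fun _ => ⟨m, Ne.symm g⟩, fun r => absurd r.symm g⟩
    · exact ⟨c d.b', h1 _ D.py.hb, fun r => absurd r g, fun _ => ⟨m, g⟩⟩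
  refine ⟨κ, ∅, ∅, B ∩ d.Y, k0, fun c0 s1 s2 => ?_, fun y m z m' a a' g g' => ?_,
    fun y m a g => ?_, fun y m => ⟨fun _ => hB m.1, id, id⟩, fun m => m.elim, fun _ m => m.elim,
    fun _ _ m => m.elim False.elim False.elim, fun _ _ _ => ⟨trivial, trivial⟩⟩
  · obtain ⟨ω, q1, q2⟩ := tok
    have ends : ∀ e ∈ PE H d.Y \ S, ∀ x ∈ e, x ∈ d.Y := fun e m x r => PE.ends m.1 r
    obtain ⟨c1, r⟩ := cyc_rec hP T F rfl rfl ne n (eF.ge vK) va vb hS k (c := c0) (A := B ∩ d.Y)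
      (s1 ▸ k0) (fun y m => by rw [s2 y m]; exact h1 y m)
      ⟨ω, paid_congr ends s2 (fun _ _ => rfl) q1, fun x m =>
        ⟨q2 (pay_congr ends s2 (fun _ _ => rfl) m), ends _ m.1 x (Sym2.mem_mk_left _ _)⟩⟩
    exact ⟨c1, eF ▸ r⟩
  · rcases only y m a with rfl | rfl <;> rcases only z m' a' with rfl | rfl
    exacts [rfl, absurd g' (k1 g).2, absurd g' (k2 g).2, rfl]
  · have nt : t ∉ B ∩ d.Y := fun r => Y_I r.2 ht
    rcases only y m a with rfl | rfl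
    · exact ⟨(k1 g).1.1, id, id, fun r => (k1 g).1.2 r.1, id, id, nt⟩
    · exact ⟨(k2 g).1.1, id, id, fun r => (k2 g).1.2 r.1, id, id, nt⟩

end Pool.Agent.P.MP_08fd93_co.FP
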