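import Pool.Agent.P.MP_08fd93_co.FP.P1
import Pool.Agent.P.MP_08fd93_co.FK.K11
import Pool.Agent.P.MP_08fd93_co.FD.E1
import Pool.Agent.P.MP_08fd93_co.FT.T4

/-! Short tails: the good frames are coloured. -/

set_option autoImplicit false

namespace Pool.Agent.P.MP_08fd93_co.FP

theorem sCol : TB.S_Col := fun _ _ _ _ _ _ _ _ _ _ _ _ h hφ H => TT.TK.col h hφ H

theorem sI : S_I := TB.modeI_of sCol

theorem sII : S_II := TB.modeII_of sCol

theorem sE : S_E := FD.modeE_of sCol

theorem sG0 : S_G0 := g0 sI sII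

theorem sG1 : S_G1 := g1 sI sII sE

end Pool.Agent.P.MP_08fd93_co.FP
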